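import Pool.Agent.Helper2.AG.Defs

/-!
Project LT (MP_b8862a_ag): three Hodge numbers `s, h, s`, ALL `s` and `h`. Definitions. Paper: /team-store/h81_LT.md
The structure `AG.D3` is helper2's.
-/

set_option linter.unusedSectionVars false

open Module PF TF PW AG

namespace LT

/-- The exceptional pairs: `1` two factors; `2` tensor powers; `3` adjoint of `SL_(k+l)`; `4` exterior powers of the
standard module of `SO_(M+2)`; `5` primitive exterior powers of the standard module of `Sp_(2r+2)`; `6` the Cartan products of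
`Λ^i` and its dual for `SL_(M+1)`; `7` the middle exterior power for `SL_(2k)`; `8` Siegel type; `9` exceptional groups. -/
def Exc (s h : ℕ) : Prop :=
  h = 2 * s ∨
  (∃ d k, 2 ≤ k ∧ 2 * s + h = d ^ k ∧ d ^ (k - 1) ∣ s) ∨
  (∃ k l, 2 ≤ k * l ∧ s = k * l ∧ h + 1 = k ^ 2 + l ^ 2) ∨
  (∃ M i, 3 ≤ M ∧ (2 * i + 3 ≤ M ∨ (2 * i + 2 = M ∧ Even i)) ∧
    s = M.choose (i + 1) ∧ h = M.choose (i + 2) + M.choose i) ∨
  ((∃ r, 2 ≤ r ∧ s = 2 * r ∧ h = r * (2 * r - 1)) ∨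
    ∃ r i, Even i ∧ i + 3 ≤ r ∧ s + (2 * r).choose (i + 1) = (2 * r).choose (i + 3) ∧
      h + (2 * r).choose i = (2 * r).choose (i + 4)) ∨
  (∃ M i, 2 * i + 3 ≤ M ∧ s + M.choose (i + 1) * M.choose i = M.choose (i + 1) * M.choose (i + 2) ∧
    h + M.choose i ^ 2 = M.choose (i + 2) ^ 2) ∨
  (∃ k, 4 ≤ k ∧ Even k ∧ s = (2 * k - 2).choose k ∧ h = 2 * (2 * k - 2).choose (k - 1)) ∨
  (∃ r, 3 ≤ r ∧ (2 * s = r * (r - 1) ∨ 2 * s = r * (r + 1)) ∧ (h = r ^ 2 ∨ h + 1 = r ^ 2)) ∨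
  (s = 2 ∧ h = 3) ∨ (s = 6 ∧ h = 14) ∨ (s = 16 ∧ h = 46) ∨ (s = 27 ∧ h = 79)

variable {E : Type*} [NormedAddCommGroup E] [InnerProductSpace ℝ E]

/-- The parity of an orthogonal module: `(l, 2 ρ^∨)` is even. -/
def Par (Φ : Finset E) (l v : E) : Prop := ∃ k : ℤ, ∑ a ∈ Ps Φ v, co a l = 2 * (k : ℝ)

/-- `l` is the highest weight for the positive roots given by `v`. -/
def Top (Φ X : Finset E) (l v : E) : Prop :=
  ∀ z : E, (∀ a ∈ Ps Φ v, 0 ≤ (inner ℝ z a : ℝ)) → ∀ x ∈ X, (inner ℝ x z : ℝ) ≤ inner ℝ l z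

/-- The data of project LT: helper2's data of a module with the levels `-1`, `0`, `1`, orthogonal, with `l` and `y` both
dominant, hence `(l, y) = 1`. -/
structure Dt (Φ X : Finset E) (n s : ℕ) (l y v : E) : Prop extends AG.D3 Φ X n s l y v where
  top : Top Φ X l v
  par : Par Φ l v
  ydom : ∀ a ∈ Ps Φ v, 0 ≤ (inner ℝ y a : ℝ)
  ly : (inner ℝ l y : ℝ) = 1

/-- Type `E_6` in the coordinates of a subsystem `A_5 × A_1`. -/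
structure TyE6 (Φ : Finset E) (u : Fin 6 → E) (z : E) : Prop where
  gram : ∀ i j, inner ℝ (u i) (u j) = (if i = j then (1 : ℝ) else 0) - 1 / 6
  zz : inner ℝ z z = (1 / 2 : ℝ)
  uz : ∀ i, inner ℝ (u i) z = (0 : ℝ)
  mem : ∀ a, a ∈ Φ ↔ (∃ i j, i ≠ j ∧ a = u i - u j) ∨ a = (2 : ℝ) • z ∨ a = -((2 : ℝ) • z) ∨
    ∃ S : Finset (Fin 6), S.card = 3 ∧ (a = ∑ i ∈ S, u i + z ∨ a = ∑ i ∈ S, u i - z)

/-- Type `E_7` in the coordinates of a subsystem `A_7`. -/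
structure TyE7 (Φ : Finset E) (u : Fin 8 → E) : Prop where
  gram : ∀ i j, inner ℝ (u i) (u j) = (if i = j then (1 : ℝ) else 0) - 1 / 8
  mem : ∀ a, a ∈ Φ ↔ (∃ i j, i ≠ j ∧ a = u i - u j) ∨ ∃ S : Finset (Fin 8), S.card = 4 ∧ a = ∑ i ∈ S, u i

/-- Type `E_8` in the coordinates of a subsystem `A_8`. -/
structure TyE8 (Φ : Finset E) (u : Fin 9 → E) : Prop where
  gram : ∀ i j, inner ℝ (u i) (u j) = (if i = j then (1 : ℝ) else 0) - 1 / 9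
  mem : ∀ a, a ∈ Φ ↔ (∃ i j, i ≠ j ∧ a = u i - u j) ∨
    ∃ S : Finset (Fin 9), S.card = 3 ∧ (a = ∑ i ∈ S, u i ∨ a = -∑ i ∈ S, u i)

/-- Type `F_4` in the coordinates of the short roots, `D_4`. -/
structure TyF4 (Φ : Finset E) (e : Fin 4 → E) : Prop where
  on : Orthonormal ℝ e
  mem : ∀ a, a ∈ Φ ↔ (∃ i j, i ≠ j ∧ (a = e i + e j ∨ a = e i - e j ∨ a = -(e i + e j))) ∨
    (∃ i, a = (2 : ℝ) • e i ∨ a = -((2 : ℝ) • e i)) ∨
    ∃ t : Fin 4 → ℝ, (∀ i, t i = 1 ∨ t i = -1) ∧ a = ∑ i, t i • e i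

/-- Type `G_2` in the coordinates of the short roots, `A_2`. -/
structure TyG2 (Φ : Finset E) (u : Fin 3 → E) : Prop where
  gram : ∀ i j, inner ℝ (u i) (u j) = (if i = j then (1 : ℝ) else 0) - 1 / 3
  mem : ∀ a, a ∈ Φ ↔ (∃ i j, i ≠ j ∧ a = u i - u j) ∨ ∃ i, a = (3 : ℝ) • u i ∨ a = -((3 : ℝ) • u i)

/-- The result of the classification. -/
def Cls (Φ : Finset E) : Prop :=
  (∃ (m : ℕ) (u : Fin m → E), 3 ≤ m ∧ FrA Φ m u) ∨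
  (∃ (m : ℕ) (e : Fin m → E) (c : ℝ) (d : ℕ), 1 ≤ m ∧ (d = 2 → 3 ≤ m) ∧ (d = 0 → 4 ≤ m) ∧ Fr Φ m e c d) ∨
  (∃ u z, TyE6 Φ u z) ∨ (∃ u, TyE7 Φ u) ∨ (∃ u, TyE8 Φ u) ∨ (∃ e, TyF4 Φ e) ∨ (∃ u, TyG2 Φ u)

end LT
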