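import Pool.Agent.Helper81.LT.LongR

/-!
Project LT (MP_b8862a_ag), block N1: the classification.
-/

set_option linter.unusedSectionVars false

open Module PF TF

namespace LT

variable {E : Type*} [NormedAddCommGroup E] [InnerProductSpace ℝ E] {Φ : Finset E} {m : ℕ}

/-- the long roots in case `D` -/
theorem Lg.d {e : Fin m → E} {b : E} {c : ℝ} (L : Lg Φ b c) (D : PD Φ m e) (hm : 3 ≤ m) :
    c = 2 ∧ ((∃ s, b = (2 : ℝ) • e s ∨ b = -((2 : ℝ) • e s)) ∨
      (m = 4 ∧ ∃ t : Fin m → ℝ, (∀ i, t i = 1 ∨ t i = -1) ∧ b = ∑ i, t i • e i)) := by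
  classical
  obtain ⟨he, hD⟩ := D
  have hee := orthonormal_iff_ite.1 he
  have hc := L.pos
  have hs : ∀ i j, i ≠ j → inner ℝ b (e i) + inner ℝ b (e j) = (0 : ℝ) ∨ inner ℝ b (e i) + inner ℝ b (e j) = c ∨
      inner ℝ b (e i) + inner ℝ b (e j) = -c := fun i j hij => by
    rw [← inner_add_right]
    exact L.pair _ ((hD _).2 ⟨i, j, hij, Or.inl rfl⟩)
  have hd : ∀ i j, i ≠ j → inner ℝ b (e i) - inner ℝ b (e j) = (0 : ℝ) ∨ inner ℝ b (e i) - inner ℝ b (e j) = c ∨
      inner ℝ b (e i) - inner ℝ b (e j) = -c := fun i j hij => by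
    rw [← _root_.inner_sub_right]
    exact L.pair _ ((hD _).2 ⟨i, j, hij, Or.inr (Or.inl rfl)⟩)
  -- expansion
  have hexp : b = ∑ i, (inner ℝ b (e i) : ℝ) • e i := by
    have hwe : ∀ j, inner ℝ (b - ∑ i, (inner ℝ b (e i) : ℝ) • e i) (e j) = (0 : ℝ) := by
      intro j
      rw [_root_.inner_sub_left, sum_inner]
      simp only [inner_smul_left, hee, conj_trivial, mul_ite, mul_one, mul_zero]
      rw [Finset.sum_ite_eq', if_pos (Finset.mem_univ j), sub_self]
    have h1 : inner ℝ (b - ∑ i, (inner ℝ b (e i) : ℝ) • e i) b = (0 : ℝ) := by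
      refine L.orth fun x hx => ?_
      obtain ⟨i, j, -, rfl | rfl | rfl⟩ := (hD x).1 hx
      · rw [inner_add_right, hwe, hwe, add_zero]
      · rw [_root_.inner_sub_right, hwe, hwe, sub_zero]
      · rw [inner_neg_right, inner_add_right, hwe, hwe, add_zero, neg_zero]
    have h2 : inner ℝ (b - ∑ i, (inner ℝ b (e i) : ℝ) • e i) (∑ i, (inner ℝ b (e i) : ℝ) • e i) = (0 : ℝ) := by
      rw [inner_sum]
      refine Finset.sum_eq_zero fun j _ => ?_
      rw [inner_smul_right, hwe, mul_zero]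
    have h3 : inner ℝ (b - ∑ i, (inner ℝ b (e i) : ℝ) • e i) (b - ∑ i, (inner ℝ b (e i) : ℝ) • e i) = (0 : ℝ) := by
      rw [_root_.inner_sub_right, h1, h2, sub_zero]
    exact sub_eq_zero.1 (inner_self_eq_zero.1 h3)
  have hnorm : (inner ℝ b b : ℝ) = ∑ i, (inner ℝ b (e i) : ℝ) ^ 2 := by
    have h1 : (inner ℝ b b : ℝ) = inner ℝ b (∑ i, (inner ℝ b (e i) : ℝ) • e i) :=
      congrArg (fun x => (inner ℝ b x : ℝ)) hexp
    rw [h1, inner_sum]
    refine Finset.sum_congr rfl fun i _ => ?_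
    rw [inner_smul_right]
    ring
  have hne : ∃ s, inner ℝ b (e s) ≠ (0 : ℝ) := by
    by_contra hcon
    push Not at hcon
    refine L.ne fun x hx => ?_
    obtain ⟨i, j, -, rfl | rfl | rfl⟩ := (hD x).1 hx
    · rw [inner_add_right, hcon, hcon, add_zero]
    · rw [_root_.inner_sub_right, hcon, hcon, sub_zero]
    · rw [inner_neg_right, inner_add_right, hcon, hcon, add_zero, neg_zero]
  have hoth : ∀ i : Fin m, ∃ j, i ≠ j := by
    intro i
    by_cases e' : i = ⟨0, by omega⟩
    · exact ⟨⟨1, by omega⟩, by rw [e']; simp⟩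
    · exact ⟨⟨0, by omega⟩, e'⟩
  by_cases hone : ∃ s, inner ℝ b (e s) = c ∨ inner ℝ b (e s) = -c
  · obtain ⟨s, hs1⟩ := hone
    have h0 : ∀ j, j ≠ s → inner ℝ b (e j) = (0 : ℝ) := by
      intro j hj
      rcases hs1 with h1 | h1 <;> rcases hs s j hj.symm with h2 | h2 | h2 <;> rcases hd s j hj.symm with h3 | h3 | h3 <;>
        linarith
    have h2 : (inner ℝ b b : ℝ) = c ^ 2 := by
      rw [hnorm, Finset.sum_eq_single s (fun j _ hj => by rw [h0 j hj]; norm_num)
        (fun h => absurd (Finset.mem_univ s) h)]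
      rcases hs1 with h1 | h1 <;> rw [h1] <;> ring
    have h3 : b = (inner ℝ b (e s) : ℝ) • e s := by
      conv_lhs => rw [hexp]
      rw [Finset.sum_eq_single s (fun j _ hj => by rw [h0 j hj, zero_smul]) (fun h => absurd (Finset.mem_univ s) h)]
    rcases L.norm with ⟨h4, h5⟩ | ⟨h4, h5⟩
    · refine ⟨h4, Or.inl ⟨s, ?_⟩⟩
      rcases hs1 with h1 | h1
      · left; rw [h1, h4] at h3; exact h3
      · right; rw [h1, h4, neg_smul] at h3; exact h3
    · rw [h5, h4] at h2
      norm_num at h2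
  · push Not at hone
    obtain ⟨s, hs1⟩ := hne
    have hhalf : ∀ j, inner ℝ b (e j) = c / 2 ∨ inner ℝ b (e j) = -(c / 2) := by
      have h1 : inner ℝ b (e s) = c / 2 ∨ inner ℝ b (e s) = -(c / 2) := by
        obtain ⟨j, hj⟩ := hoth s
        have h4 := (hone s).1
        have h5 := (hone s).2
        rcases hs s j hj with h2 | h2 | h2 <;> rcases hd s j hj with h3 | h3 | h3 <;>
          first
            | (exact absurd (by linarith) hs1)
            | (exact absurd (by linarith) h4)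
            | (exact absurd (by linarith) h5)
            | (left; linarith)
            | (right; linarith)
      intro j
      by_cases hj : s = j
      · rw [← hj]; exact h1
      · rcases h1 with h1 | h1 <;> rcases hs s j hj with h2 | h2 | h2 <;> rcases hd s j hj with h3 | h3 | h3 <;>
          first | (left; linarith) | (right; linarith) | (exfalso; linarith)
    have h2 : (inner ℝ b b : ℝ) = m * (c ^ 2 / 4) := by
      rw [hnorm]
      have : ∀ i, (inner ℝ b (e i) : ℝ) ^ 2 = c ^ 2 / 4 := by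
        intro i
        rcases hhalf i with h1 | h1 <;> rw [h1] <;> ring
      rw [Finset.sum_congr rfl fun i _ => this i, Finset.sum_const, Finset.card_univ, Fintype.card_fin, nsmul_eq_mul]
    rcases L.norm with ⟨h4, h5⟩ | ⟨h4, h5⟩
    · rw [h5, h4] at h2
      have h6 : (m : ℝ) = 4 := by linarith
      have h7 : m = 4 := by exact_mod_cast h6
      refine ⟨h4, Or.inr ⟨h7, fun i => inner ℝ b (e i), fun i => ?_, hexp⟩⟩
      rcases hhalf i with h1 | h1
      · left; show (inner ℝ b (e i) : ℝ) = 1; rw [h1, h4]; norm_num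
      · right; show (inner ℝ b (e i) : ℝ) = -1; rw [h1, h4]; norm_num
    · rw [h5, h4] at h2
      have h6 : (m : ℝ) * 3 = 8 := by linarith
      have h7 : m * 3 = 8 := by exact_mod_cast h6
      omega

/-- changing signs -/
theorem PD.sign {e : Fin m → E} (D : PD Φ m e) {t : Fin m → ℝ} (ht : ∀ i, t i = 1 ∨ t i = -1) :
    PD Φ m fun i => t i • e i := by
  obtain ⟨he, hD⟩ := D
  have hee := orthonormal_iff_ite.1 he
  refine ⟨?_, fun y => ?_⟩
  · rw [orthonormal_iff_ite]
    intro i j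
    rw [inner_smul_left, inner_smul_right, hee]
    simp only [conj_trivial]
    by_cases hij : i = j
    · subst hij
      rw [if_pos rfl]
      rcases ht i with h | h <;> rw [h] <;> norm_num
    · rw [if_neg hij]
      ring
  · rw [hD]
    constructor
    · rintro ⟨i, j, hij, h1⟩
      rcases ht i with h2 | h2 <;> rcases ht j with h3 | h3 <;> rcases h1 with rfl | rfl | rfl
      · exact ⟨i, j, hij, Or.inl (by simp only [h2, h3]; module)⟩
      · exact ⟨i, j, hij, Or.inr (Or.inl (by simp only [h2, h3]; module))⟩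
      · exact ⟨i, j, hij, Or.inr (Or.inr (by simp only [h2, h3]; module))⟩
      · exact ⟨i, j, hij, Or.inr (Or.inl (by simp only [h2, h3]; module))⟩
      · exact ⟨i, j, hij, Or.inl (by simp only [h2, h3]; module)⟩
      · exact ⟨j, i, hij.symm, Or.inr (Or.inl (by simp only [h2, h3]; module))⟩
      · exact ⟨j, i, hij.symm, Or.inr (Or.inl (by simp only [h2, h3]; module))⟩
      · exact ⟨i, j, hij, Or.inr (Or.inr (by simp only [h2, h3]; module))⟩
      · exact ⟨i, j, hij, Or.inr (Or.inl (by simp only [h2, h3]; module))⟩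
      · exact ⟨i, j, hij, Or.inr (Or.inr (by simp only [h2, h3]; module))⟩
      · exact ⟨j, i, hij.symm, Or.inr (Or.inl (by simp only [h2, h3]; module))⟩
      · exact ⟨i, j, hij, Or.inl (by simp only [h2, h3]; module)⟩
    · rintro ⟨i, j, hij, h1⟩
      rcases ht i with h2 | h2 <;> rcases ht j with h3 | h3 <;> rcases h1 with rfl | rfl | rfl
      · exact ⟨i, j, hij, Or.inl (by simp only [h2, h3]; module)⟩
      · exact ⟨i, j, hij, Or.inr (Or.inl (by simp only [h2, h3]; module))⟩
      · exact ⟨i, j, hij, Or.inr (Or.inr (by simp only [h2, h3]; module))⟩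
      · exact ⟨i, j, hij, Or.inr (Or.inl (by simp only [h2, h3]; module))⟩
      · exact ⟨i, j, hij, Or.inl (by simp only [h2, h3]; module)⟩
      · exact ⟨j, i, hij.symm, Or.inr (Or.inl (by simp only [h2, h3]; module))⟩
      · exact ⟨j, i, hij.symm, Or.inr (Or.inl (by simp only [h2, h3]; module))⟩
      · exact ⟨i, j, hij, Or.inr (Or.inr (by simp only [h2, h3]; module))⟩
      · exact ⟨i, j, hij, Or.inr (Or.inl (by simp only [h2, h3]; module))⟩
      · exact ⟨i, j, hij, Or.inr (Or.inr (by simp only [h2, h3]; module))⟩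
      · exact ⟨j, i, hij.symm, Or.inr (Or.inl (by simp only [h2, h3]; module))⟩
      · exact ⟨i, j, hij, Or.inl (by simp only [h2, h3]; module)⟩

/-- triality: the rotated frame -/
noncomputable def rot (e : Fin 4 → E) : Fin 4 → E :=
  ![(1 / 2 : ℝ) • (e 0 + e 1 + e 2 + e 3), (1 / 2 : ℝ) • (e 0 + e 1 - e 2 - e 3),
    (1 / 2 : ℝ) • (e 0 - e 1 + e 2 - e 3), (1 / 2 : ℝ) • (e 0 - e 1 - e 2 + e 3)]

theorem rot_mem (e : Fin 4 → E) {y : E}
    (h : ∃ i j, i ≠ j ∧ (y = e i + e j ∨ y = e i - e j ∨ y = -(e i + e j))) :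
    ∃ i j, i ≠ j ∧ (y = rot e i + rot e j ∨ y = rot e i - rot e j ∨ y = -(rot e i + rot e j)) := by
  have key : ∀ (i j : Fin 4) (hij : i ≠ j) (y : E),
      (y = rot e i + rot e j ∨ y = rot e i - rot e j ∨ y = -(rot e i + rot e j)) →
      ∃ i j, i ≠ j ∧ (y = rot e i + rot e j ∨ y = rot e i - rot e j ∨ y = -(rot e i + rot e j)) :=
    fun i j hij y hy => ⟨i, j, hij, hy⟩
  have r0 : rot e 0 = (1 / 2 : ℝ) • (e 0 + e 1 + e 2 + e 3) := rfl
  have r1 : rot e 1 = (1 / 2 : ℝ) • (e 0 + e 1 - e 2 - e 3) := rfl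
  have r2 : rot e 2 = (1 / 2 : ℝ) • (e 0 - e 1 + e 2 - e 3) := rfl
  have r3 : rot e 3 = (1 / 2 : ℝ) • (e 0 - e 1 - e 2 + e 3) := rfl
  obtain ⟨i, j, hij, h1⟩ := h
  -- it is enough to treat `i < j`
  wlog hlt : i < j generalizing i j y
  · rcases h1 with rfl | rfl | rfl
    · exact this j i hij.symm (Or.inl (add_comm _ _)) (lt_of_le_of_ne (not_lt.1 hlt) hij.symm)
    · obtain ⟨i', j', hij', h2⟩ := this (y := e j - e i) j i hij.symm (Or.inr (Or.inl rfl))
        (lt_of_le_of_ne (not_lt.1 hlt) hij.symm)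
      have h3 : e i - e j = -(e j - e i) := by abel
      rw [h3]
      rcases h2 with h2 | h2 | h2
      · exact ⟨i', j', hij', Or.inr (Or.inr (by rw [h2]))⟩
      · exact ⟨j', i', hij'.symm, Or.inr (Or.inl (by rw [h2]; abel))⟩
      · exact ⟨i', j', hij', Or.inl (by rw [h2, neg_neg])⟩
    · exact this j i hij.symm (Or.inr (Or.inr (by rw [add_comm]))) (lt_of_le_of_ne (not_lt.1 hlt) hij.symm)
  fin_cases i <;> fin_cases j <;> simp only [Fin.zero_eta, Fin.mk_one, Fin.reduceFinMk] at h1 hlt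
  · exact absurd hlt (by decide)
  · rcases h1 with rfl | rfl | rfl
    · exact key 0 1 (by decide) _ (Or.inl (by rw [r0, r1]; module))
    · exact key 2 3 (by decide) _ (Or.inl (by rw [r2, r3]; module))
    · exact key 0 1 (by decide) _ (Or.inr (Or.inr (by rw [r0, r1]; module)))
  · rcases h1 with rfl | rfl | rfl
    · exact key 0 2 (by decide) _ (Or.inl (by rw [r0, r2]; module))
    · exact key 1 3 (by decide) _ (Or.inl (by rw [r1, r3]; module))
    · exact key 0 2 (by decide) _ (Or.inr (Or.inr (by rw [r0, r2]; module)))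
  · rcases h1 with rfl | rfl | rfl
    · exact key 0 3 (by decide) _ (Or.inl (by rw [r0, r3]; module))
    · exact key 1 2 (by decide) _ (Or.inl (by rw [r1, r2]; module))
    · exact key 0 3 (by decide) _ (Or.inr (Or.inr (by rw [r0, r3]; module)))
  · exact absurd hlt (by decide)
  · exact absurd hlt (by decide)
  · rcases h1 with rfl | rfl | rfl
    · exact key 0 3 (by decide) _ (Or.inr (Or.inl (by rw [r0, r3]; module)))
    · exact key 1 2 (by decide) _ (Or.inr (Or.inl (by rw [r1, r2]; module)))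
    · exact key 3 0 (by decide) _ (Or.inr (Or.inl (by rw [r0, r3]; module)))
  · rcases h1 with rfl | rfl | rfl
    · exact key 0 2 (by decide) _ (Or.inr (Or.inl (by rw [r0, r2]; module)))
    · exact key 1 3 (by decide) _ (Or.inr (Or.inl (by rw [r1, r3]; module)))
    · exact key 2 0 (by decide) _ (Or.inr (Or.inl (by rw [r0, r2]; module)))
  · exact absurd hlt (by decide)
  · exact absurd hlt (by decide)
  · exact absurd hlt (by decide)
  · rcases h1 with rfl | rfl | rfl
    · exact key 0 1 (by decide) _ (Or.inr (Or.inl (by rw [r0, r1]; module)))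
    · exact key 2 3 (by decide) _ (Or.inr (Or.inl (by rw [r2, r3]; module)))
    · exact key 1 0 (by decide) _ (Or.inr (Or.inl (by rw [r0, r1]; module)))
  · exact absurd hlt (by decide)
  · exact absurd hlt (by decide)
  · exact absurd hlt (by decide)
  · exact absurd hlt (by decide)

theorem rot_rot (e : Fin 4 → E) : rot (rot e) = e := by
  have r0 : rot e 0 = (1 / 2 : ℝ) • (e 0 + e 1 + e 2 + e 3) := rfl
  have r1 : rot e 1 = (1 / 2 : ℝ) • (e 0 + e 1 - e 2 - e 3) := rfl
  have r2 : rot e 2 = (1 / 2 : ℝ) • (e 0 - e 1 + e 2 - e 3) := rfl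
  have r3 : rot e 3 = (1 / 2 : ℝ) • (e 0 - e 1 - e 2 + e 3) := rfl
  have s0 : rot (rot e) 0 = (1 / 2 : ℝ) • (rot e 0 + rot e 1 + rot e 2 + rot e 3) := rfl
  have s1 : rot (rot e) 1 = (1 / 2 : ℝ) • (rot e 0 + rot e 1 - rot e 2 - rot e 3) := rfl
  have s2 : rot (rot e) 2 = (1 / 2 : ℝ) • (rot e 0 - rot e 1 + rot e 2 - rot e 3) := rfl
  have s3 : rot (rot e) 3 = (1 / 2 : ℝ) • (rot e 0 - rot e 1 - rot e 2 + rot e 3) := rfl
  funext i
  fin_cases i
  · show rot (rot e) 0 = e 0
    rw [s0, r0, r1, r2, r3]; module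
  · show rot (rot e) 1 = e 1
    rw [s1, r0, r1, r2, r3]; module
  · show rot (rot e) 2 = e 2
    rw [s2, r0, r1, r2, r3]; module
  · show rot (rot e) 3 = e 3
    rw [s3, r0, r1, r2, r3]; module

theorem rot_orth {e : Fin 4 → E} (he : Orthonormal ℝ e) : Orthonormal ℝ (rot e) := by
  have hee := orthonormal_iff_ite.1 he
  have r0 : rot e 0 = (1 / 2 : ℝ) • (e 0 + e 1 + e 2 + e 3) := rfl
  have r1 : rot e 1 = (1 / 2 : ℝ) • (e 0 + e 1 - e 2 - e 3) := rfl
  have r2 : rot e 2 = (1 / 2 : ℝ) • (e 0 - e 1 + e 2 - e 3) := rfl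
  have r3 : rot e 3 = (1 / 2 : ℝ) • (e 0 - e 1 - e 2 + e 3) := rfl
  have n01 : (0 : Fin 4) ≠ 1 := by decide
  have n02 : (0 : Fin 4) ≠ 2 := by decide
  have n03 : (0 : Fin 4) ≠ 3 := by decide
  have n12 : (1 : Fin 4) ≠ 2 := by decide
  have n13 : (1 : Fin 4) ≠ 3 := by decide
  have n23 : (2 : Fin 4) ≠ 3 := by decide
  rw [orthonormal_iff_ite]
  intro i j
  have hgoal : ∀ i j : Fin 4, inner ℝ (rot e i) (rot e j) = if i = j then (1 : ℝ) else 0 := by
    intro i j
    fin_cases i <;> fin_cases j <;>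
      simp only [Fin.zero_eta, Fin.mk_one, Fin.reduceFinMk, r0, r1, r2, r3, inner_smul_left, inner_smul_right,
        inner_add_left, inner_add_right, _root_.inner_sub_left, _root_.inner_sub_right, hee, conj_trivial, n01, n02, n03,
        n12, n13, n23, n01.symm, n02.symm, n03.symm, n12.symm, n13.symm, n23.symm, if_true, if_false] <;> norm_num
  exact hgoal i j

theorem PD.rot {e : Fin 4 → E} (D : PD Φ 4 e) : PD Φ 4 (rot e) := by
  refine ⟨rot_orth D.1, fun y => ?_⟩
  rw [D.2]
  constructor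
  · exact rot_mem e
  · intro h1
    have h2 := rot_mem (LT.rot e) h1
    rwa [rot_rot] at h2

/-- types `C`, `D`, `F_4` -/
theorem cls_D (h : NRS Φ) {e : Fin m → E} (D : PD Φ m e) (hm : 3 ≤ m) (hm4 : m = 3 → ∃ b ∈ Φ, b ∉ Psi Φ) :
    (∃ (m : ℕ) (e : Fin m → E) (c : ℝ) (d : ℕ), 1 ≤ m ∧ (d = 2 → 3 ≤ m) ∧ (d = 0 → 4 ≤ m) ∧ Fr Φ m e c d) ∨
      ∃ e, TyF4 Φ e := by
  classical
  by_cases hex : ∃ b ∈ Φ, b ∉ Psi Φ
  · -- a frame with `2 e_s` a root
    obtain ⟨e, D, s, hs⟩ : ∃ e : Fin m → E, PD Φ m e ∧ ∃ s, (2 : ℝ) • e s ∈ Φ := by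
      obtain ⟨b, hb, hbP⟩ := hex
      obtain ⟨c, L⟩ := exists_lg h hb hbP
      obtain ⟨-, ⟨s, h1 | h1⟩ | ⟨h1, t, ht, hbt⟩⟩ := L.d D hm
      · exact ⟨e, D, s, h1 ▸ hb⟩
      · refine ⟨e, D, s, ?_⟩
        have h2 := h.toRS.neg_mem hb
        rwa [h1, neg_neg] at h2
      · subst h1
        refine ⟨LT.rot fun i => t i • e i, (D.sign ht).rot, 0, ?_⟩
        have h2 : (2 : ℝ) • LT.rot (fun i => t i • e i) 0 = b := by
          have r0 : LT.rot (fun i => t i • e i) 0 = (1 / 2 : ℝ) • (t 0 • e 0 + t 1 • e 1 + t 2 • e 2 + t 3 • e 3) := rfl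
          rw [r0, hbt, Fin.sum_univ_four]
          module
        rw [h2]
        exact hb
    have hee := orthonormal_iff_ite.1 D.1
    have hall : ∀ t, (2 : ℝ) • e t ∈ Φ := fun t => allD h D.1 D.2 hs t
    by_cases hF : ∃ b ∈ Φ, b ∉ Psi Φ ∧ ∀ s, b ≠ (2 : ℝ) • e s ∧ b ≠ -((2 : ℝ) • e s)
    · right
      obtain ⟨b, hb, hbP, hbs⟩ := hF
      obtain ⟨c, L⟩ := exists_lg h hb hbP
      obtain ⟨-, ⟨s, h1 | h1⟩ | ⟨h1, t, ht, hbt⟩⟩ := L.d D hm
      · exact absurd h1 (hbs s).1
      · exact absurd h1 (hbs s).2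
      · subst h1
        -- all signs
        have hstep : ∀ (t : Fin 4 → ℝ), (∀ i, t i = 1 ∨ t i = -1) → ∑ i, t i • e i ∈ Φ → ∀ (j : Fin 4) (a : ℝ),
            (a = 1 ∨ a = -1) → ∑ i, Function.update t j a i • e i ∈ Φ := by
          intro t ht h1 j a ha
          by_cases hta : a = t j
          · rw [hta, Function.update_eq_self]
            exact h1
          · have hta' : a = -t j := by
              rcases ha with rfl | rfl <;> rcases ht j with h2 | h2
              · exact absurd h2.symm hta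
              · rw [h2, neg_neg]
              · rw [h2]
              · exact absurd h2.symm hta
            have h2 := h.refl _ (hall j) _ h1
            have h3 : co ((2 : ℝ) • e j) (∑ i, t i • e i) = t j := by
              unfold co
              rw [sum_inner]
              simp only [inner_smul_left, inner_smul_right, hee, conj_trivial, mul_ite, mul_one, mul_zero, if_true]
              rw [Finset.sum_ite_eq', if_pos (Finset.mem_univ j)]
              ring
            rw [h3] at h2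
            have h4 : ∑ i, Function.update t j a i • e i = ∑ i, t i • e i - t j • (2 : ℝ) • e j := by
              rw [← Finset.add_sum_erase _ _ (Finset.mem_univ j), ← Finset.add_sum_erase _ (fun i => t i • e i) (Finset.mem_univ j)]
              have h5 : ∑ i ∈ Finset.univ.erase j, Function.update t j a i • e i = ∑ i ∈ Finset.univ.erase j, t i • e i :=
                Finset.sum_congr rfl fun i hi => by rw [Function.update_of_ne (Finset.ne_of_mem_erase hi)]
              rw [h5, Function.update_self, hta']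
              module
            rw [h4]
            exact h2
        rw [hbt] at hb
        have hsigns : ∀ t' : Fin 4 → ℝ, (∀ i, t' i = 1 ∨ t' i = -1) → ∑ i, t' i • e i ∈ Φ := by
          intro t' ht'
          have hu : ∀ (t : Fin 4 → ℝ), (∀ i, t i = 1 ∨ t i = -1) → ∀ (j : Fin 4) (a : ℝ), (a = 1 ∨ a = -1) →
              ∀ i, Function.update t j a i = 1 ∨ Function.update t j a i = -1 := by
            intro t ht j a ha i
            by_cases hij : i = j
            · rw [hij, Function.update_self]; exact ha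
            · rw [Function.update_of_ne hij]; exact ht i
          have s0 := hstep t ht hb 0 (t' 0) (ht' 0)
          have u0 := hu t ht 0 (t' 0) (ht' 0)
          have s1 := hstep _ u0 s0 1 (t' 1) (ht' 1)
          have u1 := hu _ u0 1 (t' 1) (ht' 1)
          have s2 := hstep _ u1 s1 2 (t' 2) (ht' 2)
          have u2 := hu _ u1 2 (t' 2) (ht' 2)
          have s3 := hstep _ u2 s2 3 (t' 3) (ht' 3)
          have h5 : Function.update (Function.update (Function.update (Function.update t 0 (t' 0)) 1 (t' 1)) 2 (t' 2)) 3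
              (t' 3) = t' := by
            funext i
            fin_cases i <;> simp [Function.update]
          rw [h5] at s3
          exact s3
        refine ⟨e, D.1, fun a => ⟨fun ha => ?_, ?_⟩⟩
        · by_cases haP : a ∈ Psi Φ
          · exact Or.inl ((D.2 a).1 haP)
          · obtain ⟨c, L⟩ := exists_lg h ha haP
            obtain ⟨-, h1 | ⟨-, h1⟩⟩ := L.d D hm
            · exact Or.inr (Or.inl h1)
            · exact Or.inr (Or.inr h1)
        · rintro (h1 | ⟨i, rfl | rfl⟩ | ⟨t', ht', rfl⟩)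
          · exact (mem_Psi.1 ((D.2 a).2 h1)).1
          · exact hall i
          · exact h.toRS.neg_mem (hall i)
          · exact hsigns t' ht'
    · left
      push Not at hF
      refine ⟨m, e, 1, 2, by omega, fun _ => hm, fun h2 => by omega, D.1, one_pos, le_rfl, fun a => ?_⟩
      simp only [one_smul, Nat.cast_ofNat, mul_one]
      constructor
      · intro ha
        by_cases haP : a ∈ Psi Φ
        · exact Or.inl ((D.2 a).1 haP)
        · obtain ⟨s, h1⟩ := hF a ha haP
          refine Or.inr ⟨by norm_num, s, ?_⟩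
          by_cases h2 : a = (2 : ℝ) • e s
          · exact Or.inl h2
          · exact Or.inr (h1 h2)
      · rintro (h1 | ⟨-, t, h1 | h1⟩)
        · exact (mem_Psi.1 ((D.2 a).2 h1)).1
        · rw [h1]; exact hall t
        · rw [h1]; exact h.toRS.neg_mem (hall t)
  · left
    push Not at hex
    refine ⟨m, e, 1, 0, by omega, fun h2 => by omega, fun _ => ?_, D.1, one_pos, by norm_num, fun a => ?_⟩
    · by_contra hcon
      obtain ⟨b, hb, hbP⟩ := hm4 (by omega)
      exact hbP (hex b hb)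
    simp only [one_smul]
    constructor
    · intro ha
      exact Or.inl ((D.2 a).1 (hex a ha))
    · rintro (h1 | ⟨h1, -⟩)
      · exact (mem_Psi.1 ((D.2 a).2 h1)).1
      · exact absurd rfl h1

/-- no long roots in the exceptional cases -/
theorem Lg.e {u : Fin m → E} {b : E} {c : ℝ} (L : Lg Φ b c) (G : Gm m u) (hm : 6 ≤ m)
    (hmem : ∀ i j, i ≠ j → u i - u j ∈ Psi Φ) :
    (∀ t, inner ℝ b (u t) = (0 : ℝ)) ∨ (c = 2 ∧ ∃ (i : Fin m) (σ : ℝ) (w : E), (σ = 1 ∨ σ = -1) ∧
      σ • b = (2 : ℝ) • u i + w ∧ (∀ t, inner ℝ w (u t) = (0 : ℝ)) ∧ inner ℝ w w = (4 / m : ℝ)) := by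
  classical
  obtain ⟨S, w, h1, h2, h3, h4⟩ := L.two G (by omega) hmem
  have hm0 : (0 : ℝ) < m := by positivity
  obtain ⟨r, hr⟩ : ∃ r, m = S.card + r := ⟨m - S.card, by omega⟩
  have hr0 : 1 ≤ r := by omega
  have hrR : (m : ℝ) - S.card = r := by
    have h5 : ((m : ℕ) : ℝ) = ((S.card + r : ℕ) : ℝ) := congrArg _ hr
    push_cast at h5
    linarith
  rw [hrR] at h3
  have hw0 : (0 : ℝ) ≤ inner ℝ w w := real_inner_self_nonneg
  have h5 : c ^ 2 * (S.card * r) ≤ (inner ℝ b b : ℝ) * m := by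
    rw [h3, add_mul]
    have h6 : c ^ 2 * ((S.card : ℝ) * r / m) * m = c ^ 2 * (S.card * r) := by field_simp
    rw [h6]
    have h7 := mul_nonneg hw0 hm0.le
    linarith
  rcases Nat.eq_zero_or_pos S.card with hk0 | hk0
  · left
    intro t
    rw [Finset.card_eq_zero] at hk0
    rw [h1, hk0, Finset.sum_empty, smul_zero, zero_add, h2]
  · right
    obtain ⟨p, hp⟩ : ∃ p, S.card = p + 1 := ⟨S.card - 1, by omega⟩
    obtain ⟨q, hq⟩ : ∃ q, r = q + 1 := ⟨r - 1, by omega⟩
    rcases L.norm with ⟨hc, h7⟩ | ⟨hc, h7⟩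
    · refine ⟨hc, ?_⟩
      rw [h7, hc] at h5
      have h8 : S.card * r ≤ m := by
        have h9 : ((S.card * r : ℕ) : ℝ) ≤ ((m : ℕ) : ℝ) := by
          push_cast
          linarith
        exact_mod_cast h9
      have h8' : (p + 1) * (q + 1) ≤ p + 1 + (q + 1) := by
        rw [← hp, ← hq, ← hr]
        exact h8
      have h10 : p * q ≤ 1 := by nlinarith
      have h11 : p = 0 ∨ q = 0 := by
        by_contra hcon
        push Not at hcon
        have hp1 : 1 ≤ p := by omega
        have hq1 : 1 ≤ q := by omega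
        have : 6 ≤ p + q + 2 := by omega
        nlinarith
      have hkey : ∀ S' : Finset (Fin m), S'.card = 1 → ∀ w' : E, ∀ σ : ℝ, (σ = 1 ∨ σ = -1) →
          σ • b = (2 : ℝ) • ∑ i ∈ S', u i + w' → (∀ t, inner ℝ w' (u t) = (0 : ℝ)) → inner ℝ w' w' = (inner ℝ w w : ℝ) →
          S.card * r = m - 1 →
          ∃ (i : Fin m) (σ : ℝ) (w : E), (σ = 1 ∨ σ = -1) ∧
            σ • b = (2 : ℝ) • u i + w ∧ (∀ t, inner ℝ w (u t) = (0 : ℝ)) ∧ inner ℝ w w = (4 / m : ℝ) := by
        intro S' hS' w' σ hσ hb' hw' hww' hSr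
        obtain ⟨i, hi⟩ := Finset.card_eq_one.1 hS'
        refine ⟨i, σ, w', hσ, by rw [hb', hi, Finset.sum_singleton], hw', ?_⟩
        rw [hww']
        have h12 : (S.card : ℝ) * r = m - 1 := by
          have h13 : ((S.card * r : ℕ) : ℝ) = ((m - 1 : ℕ) : ℝ) := congrArg _ hSr
          rw [Nat.cast_mul, Nat.cast_sub (by omega)] at h13
          push_cast at h13
          exact h13
        rw [h12, h7, hc] at h3
        have h14 : (inner ℝ w w : ℝ) = 4 - 2 ^ 2 * ((m - 1) / m) := by linarith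
        rw [h14]
        field_simp
        ring
      rcases h11 with h11 | h11
      · refine hkey S (by omega) w 1 (Or.inl rfl) (by rw [one_smul, h1, hc]) h2 rfl ?_
        rw [hp, h11]
        omega
      · refine hkey Sᶜ ?_ (-w) (-1) (Or.inr rfl) ?_ (fun t => by rw [inner_neg_left, h2, neg_zero]) (by
          rw [inner_neg_left, inner_neg_right, neg_neg]) ?_
        · rw [Finset.card_compl, Fintype.card_fin]
          omega
        · rw [G.sm_compl, h1, hc]
          module
        · rw [hq, h11]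
          omega
    · exfalso
      rw [h7, hc] at h5
      have h8 : 3 * (S.card * r) ≤ 2 * m := by
        have h9 : ((3 * (S.card * r) : ℕ) : ℝ) ≤ ((2 * m : ℕ) : ℝ) := by
          push_cast
          linarith
        exact_mod_cast h9
      have h8' : 3 * ((p + 1) * (q + 1)) ≤ 2 * (p + 1 + (q + 1)) := by
        rw [← hp, ← hq, ← hr]
        exact h8
      have : 6 ≤ p + q + 2 := by omega
      nlinarith

theorem cls_E6 (h : NRS Φ) {u : Fin 6 → E} {z : E} (P : PE6 Φ u z) : TyE6 Φ u z := by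
  classical
  obtain ⟨G, hz, huz, hP⟩ := P
  have hmem : ∀ i j, i ≠ j → u i - u j ∈ Psi Φ := fun i j hij => (hP _).2 (Or.inl ⟨i, j, hij, rfl⟩)
  have hall : ∀ a ∈ Φ, a ∈ Psi Φ := by
    intro b hb
    by_contra hbP
    obtain ⟨c, L⟩ := exists_lg h hb hbP
    have hc := L.pos
    have p2 := L.pair _ ((hP _).2 (Or.inr (Or.inl rfl)))
    rw [inner_smul_right] at p2
    have pS : ∀ S : Finset (Fin 6), S.card = 3 → inner ℝ b (∑ i ∈ S, u i + z) = (0 : ℝ) ∨
        inner ℝ b (∑ i ∈ S, u i + z) = c ∨ inner ℝ b (∑ i ∈ S, u i + z) = -c :=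
      fun S hS => L.pair _ ((hP _).2 (Or.inr (Or.inr (Or.inr ⟨S, hS, Or.inl rfl⟩))))
    rcases L.e G le_rfl hmem with h0 | ⟨hc2, i, σ, w, hσ, hb', hw, hww⟩
    · have hsb : ∀ S : Finset (Fin 6), inner ℝ b (∑ i ∈ S, u i) = (0 : ℝ) := fun S => by
        rw [inner_sum]
        exact Finset.sum_eq_zero fun t _ => h0 t
      have h1 := pS {0, 1, 2} (by decide)
      rw [inner_add_right, hsb, zero_add] at h1
      have h2 : inner ℝ b z = (0 : ℝ) := by
        rcases h1 with h1 | h1 | h1 <;> rcases p2 with h2 | h2 | h2 <;> linarith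
      refine L.ne fun x hx => ?_
      rcases (hP x).1 hx with ⟨i, j, -, rfl⟩ | rfl | rfl | ⟨S, -, rfl | rfl⟩
      · rw [_root_.inner_sub_right, h0, h0, sub_zero]
      · rw [inner_smul_right, h2, mul_zero]
      · rw [inner_neg_right, inner_smul_right, h2, mul_zero, neg_zero]
      · rw [inner_add_right, hsb, h2, add_zero]
      · rw [_root_.inner_sub_right, hsb, h2, sub_zero]
    · -- the product with `z`
      subst hc2
      have hcs := real_inner_mul_inner_self_le w z
      rw [hww, hz] at hcs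
      have hwz : inner ℝ (σ • b) z = (inner ℝ w z : ℝ) := by
        rw [hb', inner_add_left, inner_smul_left, huz, mul_zero, zero_add]
      rw [inner_smul_left] at hwz
      simp only [conj_trivial] at hwz
      have hbz : inner ℝ b z = (0 : ℝ) := by
        have h3 : (inner ℝ b z : ℝ) ^ 2 = (inner ℝ w z : ℝ) ^ 2 := by
          rw [← hwz, mul_pow]
          rcases hσ with h | h <;> rw [h] <;> ring
        rcases p2 with h2 | h2 | h2
        · linarith
        · have h4 : (inner ℝ b z : ℝ) = 1 := by linarith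
          rw [h4] at h3
          norm_num at hcs
          nlinarith
        · have h4 : (inner ℝ b z : ℝ) = -1 := by linarith
          rw [h4] at h3
          norm_num at hcs
          nlinarith
      -- the product with a sum of three vertices is `± 1`
      obtain ⟨S, hiS, hS⟩ : ∃ S : Finset (Fin 6), i ∈ S ∧ S.card = 3 := by
        obtain ⟨S, h1, h2⟩ := Finset.exists_superset_card_eq (s := ({i} : Finset (Fin 6))) (n := 3) (by simp) (by simp)
        exact ⟨S, h1 (Finset.mem_singleton_self i), h2⟩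
      have h5 : inner ℝ (σ • b) (∑ j ∈ S, u j + z) = (1 : ℝ) := by
        have h6 : inner ℝ (σ • b) z = (0 : ℝ) := by rw [inner_smul_left, hbz, mul_zero]
        have h7 : inner ℝ w (∑ j ∈ S, u j) = (0 : ℝ) := by
          rw [inner_sum]
          exact Finset.sum_eq_zero fun t _ => hw t
        rw [inner_add_right, h6, add_zero, hb', inner_add_left, inner_smul_left, h7, add_zero, real_inner_comm,
          G.inner_sm, if_pos hiS, hS]
        simp only [conj_trivial]
        norm_num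
      rw [inner_smul_left] at h5
      simp only [conj_trivial] at h5
      rcases hσ with h | h <;> rw [h] at h5 <;> rcases pS S hS with h6 | h6 | h6 <;> rw [h6] at h5 <;> norm_num at h5
  exact ⟨fun i j => by rw [G]; norm_num, hz, huz, fun a => ⟨fun ha => (hP a).1 (hall a ha), fun ha =>
    (mem_Psi.1 ((hP a).2 ha)).1⟩⟩

theorem cls_E7 (h : NRS Φ) {u : Fin 8 → E} (P : PE7 Φ u) : TyE7 Φ u := by
  classical
  obtain ⟨G, hP⟩ := P
  have hmem : ∀ i j, i ≠ j → u i - u j ∈ Psi Φ := fun i j hij => (hP _).2 (Or.inl ⟨i, j, hij, rfl⟩)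
  have hall : ∀ a ∈ Φ, a ∈ Psi Φ := by
    intro b hb
    by_contra hbP
    obtain ⟨c, L⟩ := exists_lg h hb hbP
    have pS : ∀ S : Finset (Fin 8), S.card = 4 → inner ℝ b (∑ i ∈ S, u i) = (0 : ℝ) ∨
        inner ℝ b (∑ i ∈ S, u i) = c ∨ inner ℝ b (∑ i ∈ S, u i) = -c :=
      fun S hS => L.pair _ ((hP _).2 (Or.inr ⟨S, hS, rfl⟩))
    rcases L.e G (by norm_num) hmem with h0 | ⟨hc2, i, σ, w, hσ, hb', hw, hww⟩
    · have hsb : ∀ S : Finset (Fin 8), inner ℝ b (∑ i ∈ S, u i) = (0 : ℝ) := fun S => by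
        rw [inner_sum]
        exact Finset.sum_eq_zero fun t _ => h0 t
      refine L.ne fun x hx => ?_
      rcases (hP x).1 hx with ⟨i, j, -, rfl⟩ | ⟨S, -, rfl⟩
      · rw [_root_.inner_sub_right, h0, h0, sub_zero]
      · exact hsb S
    · subst hc2
      obtain ⟨S, hiS, hS⟩ : ∃ S : Finset (Fin 8), i ∈ S ∧ S.card = 4 := by
        obtain ⟨S, h1, h2⟩ := Finset.exists_superset_card_eq (s := ({i} : Finset (Fin 8))) (n := 4) (by simp) (by simp)
        exact ⟨S, h1 (Finset.mem_singleton_self i), h2⟩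
      have h5 : inner ℝ (σ • b) (∑ j ∈ S, u j) = (1 : ℝ) := by
        have h7 : inner ℝ w (∑ j ∈ S, u j) = (0 : ℝ) := by
          rw [inner_sum]
          exact Finset.sum_eq_zero fun t _ => hw t
        rw [hb', inner_add_left, inner_smul_left, h7, add_zero, real_inner_comm, G.inner_sm, if_pos hiS, hS]
        simp only [conj_trivial]
        norm_num
      rw [inner_smul_left] at h5
      simp only [conj_trivial] at h5
      rcases hσ with h | h <;> rw [h] at h5 <;> rcases pS S hS with h6 | h6 | h6 <;> rw [h6] at h5 <;> norm_num at h5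
  exact ⟨fun i j => by rw [G]; norm_num, fun a => ⟨fun ha => (hP a).1 (hall a ha), fun ha => (mem_Psi.1 ((hP a).2 ha)).1⟩⟩

theorem cls_E8 (h : NRS Φ) {u : Fin 9 → E} (P : PE8 Φ u) : TyE8 Φ u := by
  classical
  obtain ⟨G, hP⟩ := P
  have hmem : ∀ i j, i ≠ j → u i - u j ∈ Psi Φ := fun i j hij => (hP _).2 (Or.inl ⟨i, j, hij, rfl⟩)
  have hall : ∀ a ∈ Φ, a ∈ Psi Φ := by
    intro b hb
    by_contra hbP
    obtain ⟨c, L⟩ := exists_lg h hb hbP
    have pS : ∀ S : Finset (Fin 9), S.card = 3 → inner ℝ b (∑ i ∈ S, u i) = (0 : ℝ) ∨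
        inner ℝ b (∑ i ∈ S, u i) = c ∨ inner ℝ b (∑ i ∈ S, u i) = -c :=
      fun S hS => L.pair _ ((hP _).2 (Or.inr ⟨S, hS, Or.inl rfl⟩))
    rcases L.e G (by norm_num) hmem with h0 | ⟨hc2, i, σ, w, hσ, hb', hw, hww⟩
    · have hsb : ∀ S : Finset (Fin 9), inner ℝ b (∑ i ∈ S, u i) = (0 : ℝ) := fun S => by
        rw [inner_sum]
        exact Finset.sum_eq_zero fun t _ => h0 t
      refine L.ne fun x hx => ?_
      rcases (hP x).1 hx with ⟨i, j, -, rfl⟩ | ⟨S, -, rfl | rfl⟩
      · rw [_root_.inner_sub_right, h0, h0, sub_zero]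
      · exact hsb S
      · rw [inner_neg_right, hsb, neg_zero]
    · subst hc2
      obtain ⟨S, hiS, hS⟩ : ∃ S : Finset (Fin 9), i ∈ S ∧ S.card = 3 := by
        obtain ⟨S, h1, h2⟩ := Finset.exists_superset_card_eq (s := ({i} : Finset (Fin 9))) (n := 3) (by simp) (by simp)
        exact ⟨S, h1 (Finset.mem_singleton_self i), h2⟩
      have h5 : inner ℝ (σ • b) (∑ j ∈ S, u j) = (4 / 3 : ℝ) := by
        have h7 : inner ℝ w (∑ j ∈ S, u j) = (0 : ℝ) := by
          rw [inner_sum]
          exact Finset.sum_eq_zero fun t _ => hw t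
        rw [hb', inner_add_left, inner_smul_left, h7, add_zero, real_inner_comm, G.inner_sm, if_pos hiS, hS]
        simp only [conj_trivial]
        norm_num
      rw [inner_smul_left] at h5
      simp only [conj_trivial] at h5
      rcases hσ with h | h <;> rw [h] at h5 <;> rcases pS S hS with h6 | h6 | h6 <;> rw [h6] at h5 <;> norm_num at h5
  exact ⟨fun i j => by rw [G]; norm_num, fun a => ⟨fun ha => (hP a).1 (hall a ha), fun ha => (mem_Psi.1 ((hP a).2 ha)).1⟩⟩

/-- **BLOCK N1.** The classification of the irreducible root systems. -/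
theorem classify (h : NRS Φ) : Cls Φ := by
  classical
  by_cases hnb : ∃ g ∈ Psi Φ, (Nb Φ g).Nonempty
  · rcases psi_cls h hnb with ⟨m, u, hm, A⟩ | ⟨m, e, hm, D⟩ | ⟨u, z, P⟩ | ⟨u, P⟩ | ⟨u, P⟩
    · by_cases hex : ∃ b ∈ Φ, b ∉ Psi Φ
      · obtain ⟨b, hb, hbP⟩ := hex
        obtain ⟨c, L⟩ := exists_lg h hb hbP
        rcases L.a A hm with ⟨h1, -⟩ | ⟨h1, -, -⟩
        · subst h1
          rcases cls_D h A.d3 le_rfl (fun _ => ⟨b, hb, hbP⟩) with h2 | h2
          · exact Or.inr (Or.inl h2)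
          · exact Or.inr (Or.inr (Or.inr (Or.inr (Or.inr (Or.inl h2)))))
        · subst h1
          exact Or.inr (Or.inr (Or.inr (Or.inr (Or.inr (Or.inr ⟨u, tyG2 h A hb hbP⟩)))))
      · push Not at hex
        refine Or.inl ⟨m, u, hm, A.1, fun a => ⟨fun ha => (A.2 a).1 (hex a ha), ?_⟩⟩
        rintro ⟨i, j, hij, rfl⟩
        exact (mem_Psi.1 (A.mem i j hij)).1
    · rcases cls_D h D (by omega) (fun h3 => by omega) with h2 | h2
      · exact Or.inr (Or.inl h2)
      · exact Or.inr (Or.inr (Or.inr (Or.inr (Or.inr (Or.inl h2)))))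
    · exact Or.inr (Or.inr (Or.inl ⟨u, z, cls_E6 h P⟩))
    · exact Or.inr (Or.inr (Or.inr (Or.inl ⟨u, cls_E7 h P⟩)))
    · exact Or.inr (Or.inr (Or.inr (Or.inr (Or.inl ⟨u, cls_E8 h P⟩))))
  · have H : ORS Φ := ⟨h, fun g hg => by
      rw [← Finset.not_nonempty_iff_eq_empty]
      exact fun hn => hnb ⟨g, hg, hn⟩⟩
    obtain ⟨m, hm, e, c, hF⟩ := frB H
    refine Or.inr (Or.inl ⟨m, e, c, 1, ?_, fun h2 => by omega, fun h2 => by omega, hF⟩)
    obtain ⟨g, hg⟩ := h.Psi_nonempty
    have := Finset.card_pos.2 ⟨g, hg⟩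
    omega

end LT
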