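import Pool.Agent.Helper81.LT.Defs
import Pool.Agent.Helper21.TF.Long
import Pool.Agent.Helper27.TF.Comb

/-!
Project LT (MP_b8862a_ag), block N1: simplices of maximal size, all edges of which are short roots.
-/

set_option linter.unusedSectionVars false

open Module PF TF

namespace LT

variable {E : Type*} [NormedAddCommGroup E] [InnerProductSpace ℝ E] {Φ : Finset E} {m : ℕ} {u : Fin m → E}

/-- the Gram matrix of a simplex with centre `0` -/
def Gm (m : ℕ) (u : Fin m → E) : Prop := ∀ i j, inner ℝ (u i) (u j) = (if i = j then (1 : ℝ) else 0) - 1 / m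

theorem Gm.inner_sub (G : Gm m u) (i j k : Fin m) : inner ℝ (u i - u j) (u k) =
    (if i = k then (1 : ℝ) else 0) - (if j = k then (1 : ℝ) else 0) := by
  rw [_root_.inner_sub_left, G, G]
  ring

theorem Gm.inner_sm (G : Gm m u) (S : Finset (Fin m)) (t : Fin m) :
    inner ℝ (∑ i ∈ S, u i) (u t) = (if t ∈ S then (1 : ℝ) else 0) - S.card / m := by
  rw [sum_inner]
  simp only [G _ t]
  rw [Finset.sum_sub_distrib, Finset.sum_ite_eq', Finset.sum_const, nsmul_eq_mul]
  ring

theorem Gm.inner_sm_sm (G : Gm m u) (S T : Finset (Fin m)) :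
    inner ℝ (∑ i ∈ S, u i) (∑ i ∈ T, u i) = ((S ∩ T).card : ℝ) - S.card * T.card / m := by
  rw [inner_sum]
  simp only [G.inner_sm S]
  rw [Finset.sum_sub_distrib, Finset.sum_const, nsmul_eq_mul, Finset.sum_ite_mem, Finset.sum_const, nsmul_eq_mul,
    Finset.inter_comm T S]
  ring

theorem Gm.sum_zero (G : Gm m u) : ∑ i, u i = 0 := by
  rcases Nat.eq_zero_or_pos m with rfl | hm
  · simp
  have hm' : (m : ℝ) ≠ 0 := by positivity
  rw [← inner_self_eq_zero (𝕜 := ℝ), G.inner_sm_sm]
  rw [Finset.inter_univ, Finset.card_univ, Fintype.card_fin]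
  field_simp
  ring

theorem Gm.sm_compl (G : Gm m u) (S : Finset (Fin m)) : ∑ i ∈ Sᶜ, u i = -∑ i ∈ S, u i := by
  have h1 := Finset.sum_add_sum_compl S u
  rw [G.sum_zero] at h1
  exact (neg_eq_of_add_eq_zero_right h1).symm

/-- a vector whose products with the vertices take two values -/
theorem Gm.two (G : Gm m u) (hm : 1 ≤ m) {c : ℝ} (hc : 0 < c) {x : E}
    (hd : ∀ i j, inner ℝ x (u i - u j) = (0 : ℝ) ∨ inner ℝ x (u i - u j) = c ∨ inner ℝ x (u i - u j) = -c) :
    ∃ (S : Finset (Fin m)) (w : E), x = c • ∑ i ∈ S, u i + w ∧ (∀ t, inner ℝ w (u t) = (0 : ℝ)) ∧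
      (inner ℝ x x : ℝ) = c ^ 2 * (S.card * (m - S.card) / m) + inner ℝ w w ∧ S.card + 1 ≤ m := by
  classical
  have hm0 : (0 : ℝ) < m := by exact_mod_cast hm
  have hm0' : (m : ℝ) ≠ 0 := hm0.ne'
  have hd' : ∀ i j, inner ℝ x (u i) - inner ℝ x (u j) = (0 : ℝ) ∨ inner ℝ x (u i) - inner ℝ x (u j) = c ∨
      inner ℝ x (u i) - inner ℝ x (u j) = -c := fun i j => by
    have := hd i j
    rwa [_root_.inner_sub_right] at this
  have hne0 : (Finset.univ : Finset (Fin m)).Nonempty := ⟨⟨0, by omega⟩, Finset.mem_univ _⟩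
  obtain ⟨i0, -, hi0⟩ := Finset.exists_min_image Finset.univ (fun i => (inner ℝ x (u i) : ℝ)) hne0
  set S : Finset (Fin m) := Finset.univ.filter fun i => inner ℝ x (u i) - inner ℝ x (u i0) = c with hS
  set b : ℝ := inner ℝ x (u i0) with hb
  have ha : ∀ i, inner ℝ x (u i) = c * (if i ∈ S then (1 : ℝ) else 0) + b := by
    intro i
    by_cases hi : i ∈ S
    · rw [if_pos hi]
      rw [hS, Finset.mem_filter] at hi
      linarith [hi.2]
    · rw [if_neg hi]
      rcases hd' i i0 with h1 | h1 | h1
      · linarith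
      · exact absurd (Finset.mem_filter.2 ⟨Finset.mem_univ i, h1⟩) hi
      · have := hi0 i (Finset.mem_univ i)
        linarith
  have hsum0 : ∑ i, inner ℝ x (u i) = (0 : ℝ) := by
    rw [← inner_sum, G.sum_zero, inner_zero_right]
  have hsum : c * (S.card : ℝ) + m * b = 0 := by
    have h1 := hsum0
    simp only [ha] at h1
    rw [Finset.sum_add_distrib, ← Finset.mul_sum] at h1
    simpa using h1
  have hbS : b = -(c * (S.card / m)) := by
    field_simp
    linarith
  have hi0S : i0 ∉ S := by
    intro h1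
    rw [hS, Finset.mem_filter, sub_self] at h1
    exact hc.ne h1.2
  have hlt : S.card < m := by
    have h1 : S.card < (Finset.univ : Finset (Fin m)).card :=
      Finset.card_lt_card ⟨Finset.subset_univ _, fun hh => hi0S (hh (Finset.mem_univ i0))⟩
    rwa [Finset.card_univ, Fintype.card_fin] at h1
  have hw : ∀ t, inner ℝ (x - c • ∑ i ∈ S, u i) (u t) = (0 : ℝ) := by
    intro t
    rw [_root_.inner_sub_left, inner_smul_left, G.inner_sm, ha, hbS]
    simp only [conj_trivial]
    ring
  refine ⟨S, x - c • ∑ i ∈ S, u i, by abel, hw, ?_, hlt⟩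
  have h1 : inner ℝ (x - c • ∑ i ∈ S, u i) (∑ i ∈ S, u i) = (0 : ℝ) := by
    rw [inner_sum]
    exact Finset.sum_eq_zero fun t _ => hw t
  have h2 : inner ℝ (∑ i ∈ S, u i) (x - c • ∑ i ∈ S, u i) = (0 : ℝ) := by
    rw [real_inner_comm]
    exact h1
  have h3 : x = c • ∑ i ∈ S, u i + (x - c • ∑ i ∈ S, u i) := by abel
  conv_lhs => rw [h3]
  rw [inner_add_left, inner_add_right, inner_add_right, inner_smul_left, inner_smul_right, inner_smul_left,
    inner_smul_right, h1, h2, G.inner_sm_sm, Finset.inter_self]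
  simp only [conj_trivial]
  field_simp
  ring

/-- A simplex of maximal size all of whose edges are short roots. -/
structure Mz (Φ : Finset E) (m : ℕ) (u : Fin m → E) : Prop where
  gram : Gm m u
  mem : ∀ i j, i ≠ j → u i - u j ∈ Psi Φ
  size : ∀ T ⊆ Psi Φ, (∀ y ∈ T, ∀ z ∈ T, y ≠ z → inner ℝ y z = (1 : ℝ)) → T.card + 1 ≤ m

theorem exists_Mz (h : NRS Φ) : ∃ (m : ℕ) (u : Fin m → E), Mz Φ m u := by
  classical
  obtain ⟨S, hS, hmax⟩ := Finset.exists_max_image
    ((Psi Φ).powerset.filter fun O => ∀ y ∈ O, ∀ z ∈ O, y ≠ z → inner ℝ y z = (1 : ℝ)) Finset.card ⟨∅, by simp⟩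
  rw [Finset.mem_filter, Finset.mem_powerset] at hS
  obtain ⟨hSP, hSp⟩ := hS
  set v : Fin S.card → E := fun i => (S.equivFin.symm i : E) with hvdef
  have hvS : ∀ i, v i ∈ S := fun i => (S.equivFin.symm i).2
  have hvinj : Function.Injective v := fun i j hij => S.equivFin.symm.injective (Subtype.ext hij)
  have hv : ∀ i j, inner ℝ (v i) (v j) = (if i = j then (2 : ℝ) else 1) := by
    intro i j
    by_cases hij : i = j
    · rw [if_pos hij, hij]
      exact (mem_Psi.1 (hSP (hvS j))).2
    · rw [if_neg hij]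
      exact hSp _ (hvS i) _ (hvS j) fun e => hij (hvinj e)
  obtain ⟨u, hu, huv⟩ := exists_simplex v hv
  have hmem : ∀ i j, i ≠ j → u i - u j ∈ Psi Φ := by
    intro i j hij
    have h0 : ∀ i' : Fin S.card, v i' ∈ Psi Φ := fun i' => hSP (hvS i')
    rcases Fin.eq_zero_or_eq_succ i with rfl | ⟨i', rfl⟩ <;> rcases Fin.eq_zero_or_eq_succ j with rfl | ⟨j', rfl⟩
    · exact absurd rfl hij
    · have h1 := h.neg_Psi (h0 j')
      rw [← huv j'] at h1
      rwa [neg_sub] at h1
    · rw [huv]
      exact h0 i'
    · have h1 : inner ℝ (v i') (v j') = (1 : ℝ) := by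
        rw [hv, if_neg fun e => hij (by rw [e])]
      have h2 := h.sub_Psi (h0 i') (h0 j') h1
      have h3 : u i'.succ - u j'.succ = v i' - v j' := by
        rw [← huv i', ← huv j']
        abel
      rw [h3]
      exact h2
  refine ⟨S.card + 1, u, hu, hmem, fun T hT hTp => ?_⟩
  have h1 := hmax T (by
    rw [Finset.mem_filter, Finset.mem_powerset]
    exact ⟨hT, hTp⟩)
  omega

namespace Mz

variable (M : Mz Φ m u) (h : NRS Φ)
include M

/-- no short root has the product one with all edges from one vertex -/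
theorem max {x : E} (hx : x ∈ Psi Φ) (i : Fin m) : ¬ ∀ j, j ≠ i → inner ℝ x (u i - u j) = (1 : ℝ) := by
  classical
  intro hxi
  have hu := M.gram
  have hinj : Function.Injective fun j => u i - u j := by
    intro j j' hjj
    simp only [sub_right_inj] at hjj
    by_contra hne
    have h1 := hu j j'
    have h2 := hu j' j'
    rw [hjj, h2] at h1
    rw [if_pos rfl, if_neg hne] at h1
    linarith
  set T' : Finset E := (Finset.univ.erase i).image fun j => u i - u j with hT'
  have hT'c : T'.card + 1 = m := by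
    rw [hT', Finset.card_image_of_injective _ hinj, Finset.card_erase_of_mem (Finset.mem_univ i), Finset.card_univ,
      Fintype.card_fin]
    have := i.2
    omega
  have hin : ∀ j j', j ≠ i → j' ≠ i → inner ℝ (u i - u j) (u i - u j') = (if j = j' then (2 : ℝ) else 1) := by
    intro j j' hj hj'
    rw [_root_.inner_sub_left, _root_.inner_sub_right, _root_.inner_sub_right, hu, hu, hu, hu, if_pos rfl, if_neg hj,
      if_neg hj'.symm]
    split_ifs <;> ring
  have hxT : x ∉ T' := by
    intro h1
    rw [hT', Finset.mem_image] at h1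
    obtain ⟨j, hj, rfl⟩ := h1
    have hj' := Finset.ne_of_mem_erase hj
    have h2 := hxi j hj'
    rw [hin j j hj' hj', if_pos rfl] at h2
    norm_num at h2
  have h1 := M.size (insert x T') (by
    refine Finset.insert_subset hx ?_
    intro y hy
    rw [hT', Finset.mem_image] at hy
    obtain ⟨j, hj, rfl⟩ := hy
    exact M.mem i j (Finset.ne_of_mem_erase hj).symm) (by
    intro y hy z hz hyz
    rw [Finset.mem_insert, hT', Finset.mem_image] at hy hz
    rcases hy with rfl | ⟨j, hj, rfl⟩ <;> rcases hz with rfl | ⟨j', hj', rfl⟩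
    · exact absurd rfl hyz
    · exact hxi j' (Finset.ne_of_mem_erase hj')
    · rw [real_inner_comm]; exact hxi j (Finset.ne_of_mem_erase hj)
    · rw [hin j j' (Finset.ne_of_mem_erase hj) (Finset.ne_of_mem_erase hj'), if_neg]
      rintro rfl
      exact hyz rfl)
  rw [Finset.card_insert_of_notMem hxT] at h1
  omega

include h

/-- the profile of a short root which is not an edge -/
theorem prof (hm : 1 ≤ m) {x : E} (hx : x ∈ Psi Φ) (hne : ∀ i j, i ≠ j → x ≠ u i - u j) :
    ∃ (S : Finset (Fin m)) (w : E), x = ∑ i ∈ S, u i + w ∧ (∀ t, inner ℝ w (u t) = (0 : ℝ)) ∧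
      (2 : ℝ) = S.card * (m - S.card) / m + inner ℝ w w ∧ S.card + 1 < m ∧ S.card ≠ 1 := by
  classical
  obtain ⟨S, w, h1, h2, h3, h4⟩ := M.gram.two hm one_pos (x := x) (by
    intro i j
    by_cases hij : i = j
    · left; rw [hij, sub_self, inner_zero_right]
    · exact h.inner_Psi hx (M.mem i j hij) (hne i j hij) (by
        rw [neg_sub]
        exact hne j i (Ne.symm hij)))
  rw [one_smul] at h1
  rw [(mem_Psi.1 hx).2, one_pow, one_mul] at h3
  have hin : ∀ i j, inner ℝ x (u i - u j) = (if i ∈ S then (1 : ℝ) else 0) - (if j ∈ S then 1 else 0) := by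
    intro i j
    rw [h1, _root_.inner_sub_right, inner_add_left, inner_add_left, h2, h2, M.gram.inner_sm, M.gram.inner_sm]
    ring
  have c1 : S.card ≠ 1 := by
    intro hc
    obtain ⟨i, hi⟩ := Finset.card_eq_one.1 hc
    refine M.max hx i fun j hj => ?_
    rw [hin, hi, if_pos (Finset.mem_singleton_self i), if_neg (by simpa using hj)]
    ring
  have c2 : S.card + 1 ≠ m := by
    intro hc
    have h5 : Sᶜ.card = 1 := by
      rw [Finset.card_compl, Fintype.card_fin]
      omega
    obtain ⟨i, hi⟩ := Finset.card_eq_one.1 h5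
    have h6 : ∀ j, j ∈ S ↔ j ≠ i := by
      intro j
      rw [← not_iff_not, ← Finset.mem_compl, hi, Finset.mem_singleton, not_not]
    refine M.max (h.neg_Psi hx) i fun j hj => ?_
    rw [inner_neg_left, hin, if_neg (by rw [h6]; simp), if_pos ((h6 j).2 hj)]
    ring
  exact ⟨S, w, h1, h2, h3, by omega, c1⟩

/-- exchange: all sets of the same cardinality -/
theorem all {S : Finset (Fin m)} {w : E} (hw : ∀ t, inner ℝ w (u t) = (0 : ℝ)) (hx : ∑ i ∈ S, u i + w ∈ Psi Φ)
    {T : Finset (Fin m)} (hT : T.card = S.card) : ∑ i ∈ T, u i + w ∈ Psi Φ := by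
  classical
  refine exch (fun T => ∑ i ∈ T, u i + w ∈ Psi Φ) S hx rfl ?_ T hT
  intro T hT i hi j hj
  have h1 : inner ℝ (∑ i ∈ T, u i + w) (u i - u j) = (1 : ℝ) := by
    rw [_root_.inner_sub_right, inner_add_left, inner_add_left, hw, hw, M.gram.inner_sm, M.gram.inner_sm, if_pos hi,
      if_neg hj]
    ring
  have hij : i ≠ j := by
    rintro rfl
    exact hj hi
  have h2 := h.sub_Psi hT (M.mem i j hij) h1
  have h3 : ∑ i ∈ insert j (T.erase i), u i + w = ∑ i ∈ T, u i + w - (u i - u j) := by
    have hjn : j ∉ T.erase i := fun h => hj (Finset.mem_of_mem_erase h)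
    rw [Finset.sum_insert hjn, ← Finset.add_sum_erase T u hi]
    abel
  rw [h3]
  exact h2

/-- no short root orthogonal to a nonempty part -/
theorem nb (hm : 3 ≤ m) : ∃ g ∈ Psi Φ, (Nb Φ g).Nonempty := by
  have h01 : (⟨0, by omega⟩ : Fin m) ≠ ⟨1, by omega⟩ := by simp
  have h02 : (⟨0, by omega⟩ : Fin m) ≠ ⟨2, by omega⟩ := by simp
  have h12 : (⟨1, by omega⟩ : Fin m) ≠ ⟨2, by omega⟩ := by simp
  refine ⟨_, M.mem _ _ h01, u ⟨0, by omega⟩ - u ⟨2, by omega⟩, mem_Nb.2 ⟨M.mem _ _ h02, ?_⟩⟩
  rw [_root_.inner_sub_right, M.gram.inner_sub, M.gram.inner_sub, if_pos rfl, if_neg h02.symm, if_neg h01,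
    if_neg h12.symm]
  norm_num

/-- if every short root is an edge or orthogonal to the simplex, the short roots are the edges -/
theorem caseA (hm : 3 ≤ m) (hno : ∀ x ∈ Psi Φ, (∀ i j, i ≠ j → x ≠ u i - u j) → ∀ t, inner ℝ x (u t) = (0 : ℝ)) :
    ∀ x, x ∈ Psi Φ ↔ ∃ i j, i ≠ j ∧ x = u i - u j := by
  classical
  obtain ⟨g, hg, hu⟩ := M.nb h hm
  intro x
  refine ⟨fun hx => ?_, ?_⟩
  · have h1 := h.irr_Psi hg hu ((Psi Φ).filter fun x => ∃ i j, i ≠ j ∧ x = u i - u j) (Finset.filter_subset _ _) ?_ ?_
    · rw [← h1, Finset.mem_filter] at hx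
      exact hx.2
    · have h01 : (⟨0, by omega⟩ : Fin m) ≠ ⟨1, by omega⟩ := by simp
      exact ⟨_, Finset.mem_filter.2 ⟨M.mem _ _ h01, _, _, h01, rfl⟩⟩
    · intro a ha b hb hbn
      rw [Finset.mem_filter] at ha hbn
      obtain ⟨-, i, j, hij, rfl⟩ := ha
      have h2 := hno b hb fun i j hij e => hbn ⟨hb, i, j, hij, e⟩
      rw [_root_.inner_sub_left, real_inner_comm, h2, real_inner_comm, h2, sub_zero]
  · rintro ⟨i, j, hij, rfl⟩
    exact M.mem i j hij

/-- a pair: type `D` -/
theorem caseD (hm : 4 ≤ m) {w : E} (hw : ∀ t, inner ℝ w (u t) = (0 : ℝ)) (hww : inner ℝ w w = (4 / m : ℝ))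
    (hp : ∀ i j, i ≠ j → u i + u j + w ∈ Psi Φ) :
    ∃ e : Fin m → E, Orthonormal ℝ e ∧
      ∀ y, y ∈ Psi Φ ↔ ∃ i j, i ≠ j ∧ (y = e i + e j ∨ y = e i - e j ∨ y = -(e i + e j)) := by
  classical
  have hm0 : (0 : ℝ) < m := by positivity
  set e : Fin m → E := fun i => u i + (1 / 2 : ℝ) • w with he
  have hee : ∀ i j, inner ℝ (e i) (e j) = if i = j then (1 : ℝ) else 0 := by
    intro i j
    have h1 : inner ℝ (u i) w = (0 : ℝ) := by rw [real_inner_comm]; exact hw i
    rw [he]
    simp only
    rw [inner_add_left, inner_add_right, inner_add_right, inner_smul_right, inner_smul_left, inner_smul_left,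
      inner_smul_right, h1, hw, hww, M.gram]
    simp only [conj_trivial]
    field_simp
    ring
  have he' : Orthonormal ℝ e := orthonormal_iff_ite.2 hee
  have hminus : ∀ i j, e i - e j = u i - u j := by
    intro i j
    rw [he]
    simp only
    abel
  have hplus : ∀ i j, e i + e j = u i + u j + w := by
    intro i j
    rw [he]
    simp only
    have : (1 / 2 : ℝ) • w + (1 / 2 : ℝ) • w = w := by
      rw [← add_smul]
      norm_num
    calc u i + (1 / 2 : ℝ) • w + (u j + (1 / 2 : ℝ) • w) = u i + u j + ((1 / 2 : ℝ) • w + (1 / 2 : ℝ) • w) := by abel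
      _ = _ := by rw [this]
  have hback : ∀ y, (∃ i j, i ≠ j ∧ (y = e i + e j ∨ y = e i - e j ∨ y = -(e i + e j))) → y ∈ Psi Φ := by
    rintro y ⟨i, j, hij, rfl | rfl | rfl⟩
    · rw [hplus]; exact hp i j hij
    · rw [hminus i j]; exact M.mem i j hij
    · rw [hplus]; exact h.neg_Psi (hp i j hij)
  refine ⟨e, he', fun y => ⟨fun hy => ?_, hback y⟩⟩
  obtain ⟨g, hg, hu⟩ := M.nb h (by omega)
  have h01 : (⟨0, by omega⟩ : Fin m) ≠ ⟨1, by omega⟩ := by simp
  have h1 := h.irr_Psi hg hu ((Psi Φ).filter fun y => ∃ i j, i ≠ j ∧ (y = e i + e j ∨ y = e i - e j ∨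
    y = -(e i + e j))) (Finset.filter_subset _ _) ?_ ?_
  · rw [← h1, Finset.mem_filter] at hy
    exact hy.2
  · exact ⟨_, Finset.mem_filter.2 ⟨M.mem _ _ h01, _, _, h01, Or.inr (Or.inl (hminus _ _).symm)⟩⟩
  · intro a ha b hb hbn
    rw [Finset.mem_filter] at ha hbn
    have hbn' : ∀ i j, i ≠ j → b ≠ e i + e j ∧ b ≠ e i - e j ∧ b ≠ -(e i + e j) := fun i j hij =>
      ⟨fun e' => hbn ⟨hb, i, j, hij, Or.inl e'⟩, fun e' => hbn ⟨hb, i, j, hij, Or.inr (Or.inl e')⟩,
        fun e' => hbn ⟨hb, i, j, hij, Or.inr (Or.inr e')⟩⟩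
    -- the coordinates of `b`
    have hs : ∀ i j, i ≠ j → inner ℝ b (e i) + inner ℝ b (e j) = (0 : ℝ) ∨ inner ℝ b (e i) + inner ℝ b (e j) = (1 : ℝ) ∨
        inner ℝ b (e i) + inner ℝ b (e j) = (-1 : ℝ) := by
      intro i j hij
      rw [← inner_add_right]
      exact h.inner_Psi hb (hback _ ⟨i, j, hij, Or.inl rfl⟩) (hbn' i j hij).1 (hbn' i j hij).2.2
    have hd : ∀ i j, i ≠ j → inner ℝ b (e i) - inner ℝ b (e j) = (0 : ℝ) ∨ inner ℝ b (e i) - inner ℝ b (e j) = (1 : ℝ) ∨
        inner ℝ b (e i) - inner ℝ b (e j) = (-1 : ℝ) := by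
      intro i j hij
      rw [← _root_.inner_sub_right]
      refine h.inner_Psi hb (hback _ ⟨i, j, hij, Or.inr (Or.inl rfl)⟩) (hbn' i j hij).2.1 ?_
      rw [neg_sub]
      exact (hbn' j i hij.symm).2.1
    have hzero : ∀ i, inner ℝ b (e i) = (0 : ℝ) := by
      by_contra hcon
      push Not at hcon
      obtain ⟨i, hi⟩ := hcon
      obtain ⟨j, hij⟩ : ∃ j, i ≠ j := by
        by_cases e' : i = ⟨0, by omega⟩
        · exact ⟨⟨1, by omega⟩, by rw [e']; exact h01⟩
        · exact ⟨⟨0, by omega⟩, e'⟩
      have hcases : (inner ℝ b (e i) = (1 : ℝ) ∨ inner ℝ b (e i) = (-1 : ℝ)) ∨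
          (inner ℝ b (e i) = (1 / 2 : ℝ) ∨ inner ℝ b (e i) = (-(1 / 2) : ℝ)) := by
        rcases hs i j hij with h2 | h2 | h2 <;> rcases hd i j hij with h3 | h3 | h3
        · exact absurd (by linarith) hi
        · right; left; linarith
        · right; right; linarith
        · right; left; linarith
        · left; left; linarith
        · exact absurd (by linarith) hi
        · right; right; linarith
        · exact absurd (by linarith) hi
        · left; right; linarith
      rcases hcases with hone | hhalf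
      · -- one coordinate
        have hoth : ∀ j, j ≠ i → inner ℝ b (e j) = (0 : ℝ) := by
          intro j hj
          rcases hone with h0 | h0 <;> rcases hs i j hj.symm with h2 | h2 | h2 <;> rcases hd i j hj.symm with h3 | h3 | h3 <;>
            linarith
        rcases hone with h0 | h0
        · refine M.max hb i fun j hj => ?_
          rw [← hminus, _root_.inner_sub_right, h0, hoth j hj]
          norm_num
        · refine M.max (h.neg_Psi hb) i fun j hj => ?_
          rw [← hminus, inner_neg_left, _root_.inner_sub_right, h0, hoth j hj]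
          norm_num
      · -- all coordinates are half odd
        have hall : ∀ j, inner ℝ b (e j) = (1 / 2 : ℝ) ∨ inner ℝ b (e j) = (-(1 / 2) : ℝ) := by
          intro j
          by_cases hji : j = i
          · rw [hji]; exact hhalf
          have hij' : i ≠ j := Ne.symm hji
          rcases hhalf with h0 | h0 <;> rcases hs i j hij' with h2 | h2 | h2 <;> rcases hd i j hij' with h3 | h3 | h3 <;>
            first | (left; linarith) | (right; linarith) | (exfalso; linarith)
        set f : Fin m → E := fun j => (2 * inner ℝ b (e j) : ℝ) • e j with hf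
        have hff : ∀ j k, inner ℝ (f j) (f k) = if j = k then (1 : ℝ) else 0 := by
          intro j k
          rw [hf]
          simp only
          rw [inner_smul_left, inner_smul_right, hee]
          simp only [conj_trivial]
          by_cases hjk : j = k
          · rw [if_pos hjk, hjk]
            rcases hall k with h0 | h0 <;> rw [h0] <;> norm_num
          · rw [if_neg hjk]
            ring
        have hbf : ∀ j, inner ℝ b (f j) = (1 / 2 : ℝ) := by
          intro j
          rw [hf]
          simp only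
          rw [inner_smul_right]
          rcases hall j with h0 | h0 <;> rw [h0] <;> norm_num
        have hfmem : ∀ j k, j ≠ k → f j + f k ∈ Psi Φ := by
          intro j k hjk
          apply hback
          rcases hall j with h0 | h0 <;> rcases hall k with h1 | h1
          · refine ⟨j, k, hjk, Or.inl ?_⟩
            simp only [hf, h0, h1]
            norm_num
          · refine ⟨j, k, hjk, Or.inr (Or.inl ?_)⟩
            simp only [hf, h0, h1]
            norm_num
            abel
          · refine ⟨k, j, hjk.symm, Or.inr (Or.inl ?_)⟩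
            simp only [hf, h0, h1]
            norm_num
            abel
          · refine ⟨j, k, hjk, Or.inr (Or.inr ?_)⟩
            simp only [hf, h0, h1]
            norm_num
            abel
        have i0 : Fin m := ⟨0, by omega⟩
        have hbb : inner ℝ b b = (2 : ℝ) := (mem_Psi.1 hb).2
        have hmem1 : ∀ j, j ≠ i0 → f j + f i0 - b ∈ Psi Φ := by
          intro j hj
          have h2 : inner ℝ b (f j + f i0) = (1 : ℝ) := by
            rw [inner_add_right, hbf, hbf]
            norm_num
          have h3 := h.neg_Psi (h.sub_Psi hb (hfmem j i0 hj) h2)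
          rwa [neg_sub] at h3
        have hfb : ∀ j, inner ℝ (f j) b = (1 / 2 : ℝ) := fun j => by rw [real_inner_comm]; exact hbf j
        have hinj : Function.Injective fun j => f j + f i0 - b := by
          intro j k hjk
          simp only at hjk
          have h4 : f j = f k := by
            have h5 : f j = (f j + f i0 - b) - (f i0 - b) := by abel
            rw [h5, hjk]
            abel
          by_contra hne
          have h5 := hff j k
          rw [h4, hff, if_pos rfl, if_neg hne] at h5
          exact one_ne_zero h5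
        have hprod : ∀ j k, j ≠ i0 → k ≠ i0 → inner ℝ (f j + f i0 - b) (f k + f i0 - b) = if j = k then (2 : ℝ) else 1 := by
          intro j k hj hk
          simp only [_root_.inner_sub_left, _root_.inner_sub_right, inner_add_left, inner_add_right, hff, hbf, hfb, hbb,
            if_true, if_neg hj, if_neg hk.symm]
          split_ifs <;> norm_num
        set T' : Finset E := (Finset.univ.erase i0).image fun j => f j + f i0 - b with hT'
        have hbT : -b ∉ T' := by
          intro h2
          rw [hT', Finset.mem_image] at h2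
          obtain ⟨j, hj, h3⟩ := h2
          have h4 : f j + f i0 = 0 := by
            have h5 : f j + f i0 = (f j + f i0 - b) + b := by abel
            rw [h5, h3]
            abel
          have h6 := (mem_Psi.1 (hfmem j i0 (Finset.ne_of_mem_erase hj))).2
          rw [h4, inner_zero_left] at h6
          norm_num at h6
        have h2 := M.size (insert (-b) T') (by
          refine Finset.insert_subset (h.neg_Psi hb) ?_
          intro y hy
          rw [hT', Finset.mem_image] at hy
          obtain ⟨j, hj, rfl⟩ := hy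
          exact hmem1 j (Finset.ne_of_mem_erase hj)) (by
          have hbx : ∀ j, inner ℝ (-b) (f j + f i0 - b) = (1 : ℝ) := by
            intro j
            rw [inner_neg_left, _root_.inner_sub_right, inner_add_right, hbf, hbf, hbb]
            norm_num
          intro y hy z hz hyz
          rw [Finset.mem_insert, hT', Finset.mem_image] at hy hz
          rcases hy with rfl | ⟨j, hj, rfl⟩ <;> rcases hz with rfl | ⟨k, hk, rfl⟩
          · exact absurd rfl hyz
          · exact hbx k
          · rw [real_inner_comm]; exact hbx j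
          · rw [hprod j k (Finset.ne_of_mem_erase hj) (Finset.ne_of_mem_erase hk), if_neg]
            rintro rfl
            exact hyz rfl)
        rw [Finset.card_insert_of_notMem hbT, hT', Finset.card_image_of_injective _ hinj,
          Finset.card_erase_of_mem (Finset.mem_univ i0), Finset.card_univ, Fintype.card_fin] at h2
        omega
    obtain ⟨-, i, j, hij, h2⟩ := ha
    rcases h2 with rfl | rfl | rfl
    · rw [inner_add_left, real_inner_comm, hzero, real_inner_comm, hzero, add_zero]
    · rw [_root_.inner_sub_left, real_inner_comm, hzero, real_inner_comm, hzero, sub_zero]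
    · rw [inner_neg_left, inner_add_left, real_inner_comm, hzero, real_inner_comm, hzero, add_zero, neg_zero]

end Mz

end LT
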