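import Mathlib

/-! Numerics for the three families of surfaces: the greatest common divisor of the two Hodge
numbers `s = h^{2,0}`, `h = h^{1,1}_0` is small: `gcd(s,h)^2 < 2s+h`. -/

namespace LT

theorem gcd_surf {t s h : ℕ} (ht : 2 ≤ t) (hs : 6 * s = (t + 2) * (t + 1) * t)
    (hh : 3 * h = (t + 2) * (2 * t ^ 2 + 8 * t + 9)) : Nat.gcd s h ^ 2 < 2 * s + h := by
  have hsum : 2 * s + h = (t + 2) * (t ^ 2 + 3 * t + 3) := by
    have : 3 * (2 * s + h) = 3 * ((t + 2) * (t ^ 2 + 3 * t + 3)) := by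
      have e : 3 * (2 * s + h) = 6 * s + 3 * h := by ring
      rw [e, hs, hh]; ring
    omega
  rcases Nat.lt_or_ge t 8 with h8 | h8
  · interval_cases t
    · have : s = 4 := by omega
      have : h = 44 := by omega
      subst_vars; decide
    · have : s = 10 := by omega
      have : h = 85 := by omega
      subst_vars; decide
    · have : s = 20 := by omega
      have : h = 146 := by omega
      subst_vars; decide
    · have : s = 35 := by omega
      have : h = 231 := by omega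
      subst_vars; decide
    · have : s = 56 := by omega
      have : h = 344 := by omega
      subst_vars; decide
    · have : s = 84 := by omega
      have : h = 489 := by omega
      subst_vars; decide
  · have hdvd : ((Nat.gcd s h : ℕ) : ℤ) ∣ ((3 * (t + 2) : ℕ) : ℤ) := by
      have h1 : ((Nat.gcd s h : ℕ) : ℤ) ∣ (s : ℤ) := Int.natCast_dvd_natCast.2 (Nat.gcd_dvd_left s h)
      have h2 : ((Nat.gcd s h : ℕ) : ℤ) ∣ (h : ℤ) := Int.natCast_dvd_natCast.2 (Nat.gcd_dvd_right s h)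
      have hs' : (6 : ℤ) * s = (t + 2) * (t + 1) * t := by exact_mod_cast hs
      have hh' : (3 : ℤ) * h = (t + 2) * (2 * t ^ 2 + 8 * t + 9) := by exact_mod_cast hh
      have e : ((3 * (t + 2) : ℕ) : ℤ) = (8 * (t : ℤ) + 20) * s - (2 * t - 1) * h := by
        push_cast
        have : (3 : ℤ) * (3 * ((t : ℤ) + 2)) = 3 * ((8 * (t : ℤ) + 20) * s - (2 * t - 1) * h) := by
          have e2 : 3 * ((8 * (t : ℤ) + 20) * s - (2 * t - 1) * h)
              = (4 * (t : ℤ) + 10) * (6 * s) - (2 * t - 1) * (3 * h) := by ring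
          rw [e2, hs', hh']; ring
        linarith
      rw [e]
      exact dvd_sub (h1.mul_left _) (h2.mul_left _)
    have hle : Nat.gcd s h ≤ 3 * (t + 2) :=
      Nat.le_of_dvd (by omega) (Int.natCast_dvd_natCast.1 hdvd)
    rw [hsum]
    have hsq : Nat.gcd s h ^ 2 ≤ (3 * (t + 2)) ^ 2 := Nat.pow_le_pow_left hle 2
    refine lt_of_le_of_lt hsq ?_
    nlinarith

theorem gcd_dpl {e s h : ℕ} (he : 4 ≤ e) (hs : 2 * s = (e - 1) * (e - 2))
    (hh : h = 3 * e * (e - 1) + 1) : Nat.gcd s h ^ 2 < 2 * s + h := by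
  obtain ⟨f, rfl⟩ : ∃ f, e = f + 4 := ⟨e - 4, by omega⟩
  have e1 : f + 4 - 1 = f + 3 := by omega
  have e2 : f + 4 - 2 = f + 2 := by omega
  rw [e1, e2] at hs
  rw [e1] at hh
  rcases Nat.eq_zero_or_pos f with rfl | hf
  · have : s = 3 := by omega
    have : h = 37 := by omega
    subst_vars; decide
  · have hdvd : ((Nat.gcd s h : ℕ) : ℤ) ∣ ((7 : ℕ) : ℤ) := by
      have h1 : ((Nat.gcd s h : ℕ) : ℤ) ∣ (s : ℤ) := Int.natCast_dvd_natCast.2 (Nat.gcd_dvd_left s h)
      have h2 : ((Nat.gcd s h : ℕ) : ℤ) ∣ (h : ℤ) := Int.natCast_dvd_natCast.2 (Nat.gcd_dvd_right s h)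
      have hs' : (2 : ℤ) * s = (f + 3) * (f + 2) := by exact_mod_cast hs
      have hh' : (h : ℤ) = 3 * (f + 4) * (f + 3) + 1 := by exact_mod_cast hh
      have e : ((7 : ℕ) : ℤ) = 36 * (2 * (s : ℤ)) - (6 * f + 11) * (h - 3 * (2 * (s : ℤ))) := by
        rw [hs', hh']; push_cast; ring
      rw [e]
      have h3 : ((Nat.gcd s h : ℕ) : ℤ) ∣ 2 * (s : ℤ) := h1.mul_left _
      exact dvd_sub (h3.mul_left _) ((dvd_sub h2 (h3.mul_left _)).mul_left _)
    have hle : Nat.gcd s h ≤ 7 := Nat.le_of_dvd (by omega) (Int.natCast_dvd_natCast.1 hdvd)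
    have hsq : Nat.gcd s h ^ 2 ≤ 7 ^ 2 := Nat.pow_le_pow_left hle 2
    refine lt_of_le_of_lt hsq ?_
    rw [hs, hh]
    nlinarith

theorem gcd_ell {s : ℕ} (hs : 2 ≤ s) : Nat.gcd s (10 * s + 8) ^ 2 < 2 * s + (10 * s + 8) := by
  rcases Nat.lt_or_ge s 5 with h5 | h5
  · interval_cases s <;> decide
  · have hdvd : Nat.gcd s (10 * s + 8) ∣ 8 :=
      (Nat.dvd_add_right ((Nat.gcd_dvd_left s (10 * s + 8)).mul_left 10)).1
        (Nat.gcd_dvd_right s (10 * s + 8))
    have hle : Nat.gcd s (10 * s + 8) ≤ 8 := Nat.le_of_dvd (by omega) hdvd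
    have hsq : Nat.gcd s (10 * s + 8) ^ 2 ≤ 8 ^ 2 := Nat.pow_le_pow_left hle 2
    omega

end LT
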