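import Pool.Agent.Helper81.LT.Psi

/-!
Project LT (MP_b8862a_ag), block N1: the long roots.
-/

set_option linter.unusedSectionVars false

open Module PF TF

namespace LT

variable {E : Type*} [NormedAddCommGroup E] [InnerProductSpace ℝ E] {Φ : Finset E} {m : ℕ} {u : Fin m → E}

/-- the properties of a long root -/
structure Lg (Φ : Finset E) (b : E) (c : ℝ) : Prop where
  pos : 0 < c
  pair : ∀ x ∈ Psi Φ, inner ℝ b x = (0 : ℝ) ∨ inner ℝ b x = c ∨ inner ℝ b x = -c
  sum : ∃ g ∈ Psi Φ, ∃ g' ∈ Psi Φ, b = g + g' ∧ inner ℝ b g = c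
  norm : (c = 2 ∧ inner ℝ b b = (4 : ℝ)) ∨ (c = 3 ∧ inner ℝ b b = (6 : ℝ))

theorem exists_lg (h : NRS Φ) {b : E} (hb : b ∈ Φ) (hbP : b ∉ Psi Φ) : ∃ c, Lg Φ b c := by
  rcases long_sum h hb hbP with ⟨h4, hex⟩ | ⟨h6, hex⟩
  · exact ⟨2, by norm_num, fun x hx => h.four hb h4 hx, hex, Or.inl ⟨rfl, h4⟩⟩
  · exact ⟨3, by norm_num, fun x hx => h.six hb h6 hx, hex, Or.inr ⟨rfl, h6⟩⟩

theorem Lg.orth {b : E} {c : ℝ} (L : Lg Φ b c) {w : E} (hw : ∀ x ∈ Psi Φ, inner ℝ w x = (0 : ℝ)) :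
    inner ℝ w b = (0 : ℝ) := by
  obtain ⟨g, hg, g', hg', hb, -⟩ := L.sum
  rw [hb, inner_add_right, hw g hg, hw g' hg', add_zero]

theorem Lg.ne {b : E} {c : ℝ} (L : Lg Φ b c) (hb : ∀ x ∈ Psi Φ, inner ℝ b x = (0 : ℝ)) : False := by
  obtain ⟨g, hg, g', hg', -, h1⟩ := L.sum
  have := L.pos
  rw [hb g hg] at h1
  linarith

/-- a long root in the coordinates of a simplex -/
theorem Lg.two {b : E} {c : ℝ} (L : Lg Φ b c) (G : Gm m u) (hm : 1 ≤ m) (hmem : ∀ i j, i ≠ j → u i - u j ∈ Psi Φ) :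
    ∃ (S : Finset (Fin m)) (w : E), b = c • ∑ i ∈ S, u i + w ∧ (∀ t, inner ℝ w (u t) = (0 : ℝ)) ∧
      (inner ℝ b b : ℝ) = c ^ 2 * (S.card * (m - S.card) / m) + inner ℝ w w ∧ S.card + 1 ≤ m := by
  refine G.two hm L.pos fun i j => ?_
  by_cases hij : i = j
  · left; rw [hij, sub_self, inner_zero_right]
  · exact L.pair _ (hmem i j hij)

theorem PA.mem {m : ℕ} {u : Fin m → E} (A : PA Φ m u) (i j : Fin m) (hij : i ≠ j) : u i - u j ∈ Psi Φ :=
  (A.2 _).2 ⟨i, j, hij, rfl⟩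

/-- the long roots in case `A` -/
theorem Lg.a {b : E} {c : ℝ} (L : Lg Φ b c) (A : PA Φ m u) (hm : 3 ≤ m) :
    (m = 4 ∧ c = 2) ∨ (m = 3 ∧ c = 3 ∧ ∃ i, b = (3 : ℝ) • u i ∨ b = -((3 : ℝ) • u i)) := by
  classical
  obtain ⟨S, w, h1, h2, h3, h4⟩ := L.two A.1 (by omega) A.mem
  have hm0 : (0 : ℝ) < m := by positivity
  have hw : ∀ x ∈ Psi Φ, inner ℝ w x = (0 : ℝ) := by
    intro x hx
    obtain ⟨i, j, -, rfl⟩ := (A.2 x).1 hx
    rw [_root_.inner_sub_right, h2, h2, sub_zero]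
  have hww : inner ℝ w w = (0 : ℝ) := by
    have h5 := L.orth hw
    rw [h1, inner_add_right, inner_smul_right, inner_sum, Finset.sum_eq_zero fun t _ => h2 t, mul_zero, zero_add] at h5
    exact h5
  have hw0 : w = 0 := inner_self_eq_zero.1 hww
  rw [hww, add_zero] at h3
  rw [hw0, add_zero] at h1
  obtain ⟨r, hr⟩ : ∃ r, m = S.card + r := ⟨m - S.card, by omega⟩
  have hr0 : 1 ≤ r := by omega
  have hrR : (m : ℝ) - S.card = r := by
    have h5 : ((m : ℕ) : ℝ) = ((S.card + r : ℕ) : ℝ) := congrArg _ hr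
    push_cast at h5
    linarith
  rw [hrR] at h3
  have h5 : (inner ℝ b b : ℝ) * m = c ^ 2 * (S.card * r) := by
    rw [h3]
    field_simp
  have hk0 : 1 ≤ S.card := by
    by_contra hcon
    have h6 : S.card = 0 := by omega
    rw [h6] at h5
    rcases L.norm with ⟨-, h7⟩ | ⟨-, h7⟩ <;> rw [h7] at h5 <;> simp at h5 <;> omega
  rcases L.norm with ⟨hc, h7⟩ | ⟨hc, h7⟩
  · left
    rw [h7, hc] at h5
    have h8 : m = S.card * r := by
      have h9 : ((m : ℕ) : ℝ) = ((S.card * r : ℕ) : ℝ) := by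
        push_cast
        linarith
      exact_mod_cast h9
    obtain ⟨p, hp⟩ : ∃ p, S.card = p + 1 := ⟨S.card - 1, by omega⟩
    obtain ⟨q, hq⟩ : ∃ q, r = q + 1 := ⟨r - 1, by omega⟩
    rw [hp, hq] at h8 hr
    have h10 : p * q = 1 := by
      rw [hr] at h8
      nlinarith
    have h11 := Nat.eq_one_of_mul_eq_one_right h10
    have h12 := Nat.eq_one_of_mul_eq_one_left h10
    exact ⟨by omega, hc⟩
  · right
    rw [h7, hc] at h5
    have h8 : 2 * m = 3 * (S.card * r) := by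
      have h9 : ((2 * m : ℕ) : ℝ) = ((3 * (S.card * r) : ℕ) : ℝ) := by
        push_cast
        linarith
      exact_mod_cast h9
    obtain ⟨p, hp⟩ : ∃ p, S.card = p + 1 := ⟨S.card - 1, by omega⟩
    obtain ⟨q, hq⟩ : ∃ q, r = q + 1 := ⟨r - 1, by omega⟩
    have hm3 : m = 3 := by
      rw [hp, hq] at h8 hr
      rw [hr] at h8
      have h10 : 3 * (p * q) + p + q = 1 := by nlinarith
      omega
    subst hm3
    refine ⟨rfl, hc, ?_⟩
    have hS : S.card = 1 ∨ S.card = 2 := by omega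
    rcases hS with hS | hS
    · obtain ⟨i, hi⟩ := Finset.card_eq_one.1 hS
      exact ⟨i, Or.inl (by rw [h1, hi, Finset.sum_singleton, hc])⟩
    · have h9 : Sᶜ.card = 1 := by rw [Finset.card_compl, Fintype.card_fin, hS]
      obtain ⟨i, hi⟩ := Finset.card_eq_one.1 h9
      refine ⟨i, Or.inr ?_⟩
      have h10 := A.1.sm_compl S
      rw [hi, Finset.sum_singleton] at h10
      rw [h1, h10, hc, smul_neg, neg_neg]

/-- type `G_2` -/
theorem tyG2 (h : NRS Φ) {u : Fin 3 → E} (A : PA Φ 3 u) {b : E} (hb : b ∈ Φ) (hbP : b ∉ Psi Φ) : TyG2 Φ u := by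
  have hlong : ∀ b ∈ Φ, b ∉ Psi Φ → ∃ i, b = (3 : ℝ) • u i ∨ b = -((3 : ℝ) • u i) := by
    intro b hb hbP
    obtain ⟨c, L⟩ := exists_lg h hb hbP
    rcases L.a A le_rfl with ⟨h1, -⟩ | ⟨-, -, h1⟩
    · omega
    · exact h1
  obtain ⟨i0, hi0⟩ : ∃ i, (3 : ℝ) • u i ∈ Φ := by
    obtain ⟨i, h1 | h1⟩ := hlong b hb hbP
    · exact ⟨i, h1 ▸ hb⟩
    · refine ⟨i, ?_⟩
      have h2 := h.toRS.neg_mem hb
      rwa [h1, neg_neg] at h2
  have hall : ∀ j, (3 : ℝ) • u j ∈ Φ := by
    intro j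
    by_cases hj : i0 = j
    · rw [← hj]; exact hi0
    · have h1 : u i0 - u j ∈ Psi Φ := A.mem i0 j hj
      have h2 := h.refl _ (mem_Psi.1 h1).1 _ hi0
      rw [co_Psi h1, inner_smul_left, _root_.inner_sub_right, A.1, A.1, if_pos rfl, if_neg hj] at h2
      simp only [conj_trivial] at h2
      have h3 : (3 : ℝ) • u j = (3 : ℝ) • u i0 - (3 * (1 - 1 / (3 : ℕ) - (0 - 1 / (3 : ℕ))) : ℝ) • (u i0 - u j) := by
        norm_num
        rw [smul_sub]
        abel
      rw [h3]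
      exact h2
  refine ⟨fun i j => by rw [A.1]; norm_num, fun a => ⟨fun ha => ?_, ?_⟩⟩
  · by_cases haP : a ∈ Psi Φ
    · exact Or.inl ((A.2 a).1 haP)
    · exact Or.inr (hlong a ha haP)
  · rintro (⟨i, j, hij, rfl⟩ | ⟨i, rfl | rfl⟩)
    · exact (mem_Psi.1 (A.mem i j hij)).1
    · exact hall i
    · exact h.toRS.neg_mem (hall i)

/-- type `A_3` in the coordinates of `D_3` -/
theorem PA.d3 {u : Fin 4 → E} (A : PA Φ 4 u) : PD Φ 3 ![u 0 + u 1, u 0 + u 2, u 0 + u 3] := by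
  have h3 : u 3 = -(u 0 + u 1 + u 2) := by
    have h1 := A.1.sum_zero
    rw [Fin.sum_univ_four] at h1
    exact (neg_eq_of_add_eq_zero_right h1).symm
  refine ⟨?_, fun y => ?_⟩
  · have he : ∀ i : Fin 3, (![u 0 + u 1, u 0 + u 2, u 0 + u 3] : Fin 3 → E) i = u 0 + u i.succ := by
      intro i
      fin_cases i <;> rfl
    rw [orthonormal_iff_ite]
    intro i j
    rw [he, he, inner_add_left, inner_add_right, inner_add_right, A.1, A.1, A.1, A.1, if_pos rfl,
      if_neg (Fin.succ_ne_zero j).symm, if_neg (Fin.succ_ne_zero i)]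
    simp only [Fin.succ_inj]
    push_cast
    ring
  · rw [A.2]
    constructor
    · rintro ⟨i, j, hij, rfl⟩
      have key : ∀ (i j : Fin 3) (hij : i ≠ j) (y : E),
          (y = (![u 0 + u 1, u 0 + u 2, u 0 + u 3] : Fin 3 → E) i + (![u 0 + u 1, u 0 + u 2, u 0 + u 3] : Fin 3 → E) j ∨
          y = (![u 0 + u 1, u 0 + u 2, u 0 + u 3] : Fin 3 → E) i - (![u 0 + u 1, u 0 + u 2, u 0 + u 3] : Fin 3 → E) j ∨
          y = -((![u 0 + u 1, u 0 + u 2, u 0 + u 3] : Fin 3 → E) i + (![u 0 + u 1, u 0 + u 2, u 0 + u 3] : Fin 3 → E) j)) →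
          ∃ i j, i ≠ j ∧ (y = (![u 0 + u 1, u 0 + u 2, u 0 + u 3] : Fin 3 → E) i + (![u 0 + u 1, u 0 + u 2, u 0 + u 3] : Fin 3 → E) j ∨
          y = (![u 0 + u 1, u 0 + u 2, u 0 + u 3] : Fin 3 → E) i - (![u 0 + u 1, u 0 + u 2, u 0 + u 3] : Fin 3 → E) j ∨
          y = -((![u 0 + u 1, u 0 + u 2, u 0 + u 3] : Fin 3 → E) i + (![u 0 + u 1, u 0 + u 2, u 0 + u 3] : Fin 3 → E) j)) :=
        fun i j hij y hy => ⟨i, j, hij, hy⟩
      fin_cases i <;> fin_cases j
      · exact absurd rfl hij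
      · exact key 1 2 (by decide) _ (Or.inl (by simp; rw [h3]; abel))
      · exact key 0 2 (by decide) _ (Or.inl (by simp; rw [h3]; abel))
      · exact key 0 1 (by decide) _ (Or.inl (by simp; rw [h3]; abel))
      · exact key 1 2 (by decide) _ (Or.inr (Or.inr (by simp; rw [h3]; abel)))
      · exact absurd rfl hij
      · exact key 0 1 (by decide) _ (Or.inr (Or.inl (by simp)))
      · exact key 0 2 (by decide) _ (Or.inr (Or.inl (by simp)))
      · exact key 0 2 (by decide) _ (Or.inr (Or.inr (by simp; rw [h3]; abel)))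
      · exact key 1 0 (by decide) _ (Or.inr (Or.inl (by simp)))
      · exact absurd rfl hij
      · exact key 1 2 (by decide) _ (Or.inr (Or.inl (by simp)))
      · exact key 0 1 (by decide) _ (Or.inr (Or.inr (by simp; rw [h3]; abel)))
      · exact key 2 0 (by decide) _ (Or.inr (Or.inl (by simp)))
      · exact key 2 1 (by decide) _ (Or.inr (Or.inl (by simp)))
      · exact absurd rfl hij
    · have key : ∀ (i j : Fin 4) (hij : i ≠ j) (y : E), y = u i - u j → ∃ i j, i ≠ j ∧ y = u i - u j :=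
        fun i j hij y hy => ⟨i, j, hij, hy⟩
      rintro ⟨i, j, hij, h1⟩
      fin_cases i <;> fin_cases j
      · exact absurd rfl hij
      · rcases h1 with rfl | rfl | rfl
        · exact key 0 3 (by decide) _ (by simp; rw [h3]; abel)
        · exact key 1 2 (by decide) _ (by simp)
        · exact key 3 0 (by decide) _ (by simp; rw [h3]; abel)
      · rcases h1 with rfl | rfl | rfl
        · exact key 0 2 (by decide) _ (by simp; rw [h3]; abel)
        · exact key 1 3 (by decide) _ (by simp)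
        · exact key 2 0 (by decide) _ (by simp; rw [h3]; abel)
      · rcases h1 with rfl | rfl | rfl
        · exact key 0 3 (by decide) _ (by simp; rw [h3]; abel)
        · exact key 2 1 (by decide) _ (by simp)
        · exact key 3 0 (by decide) _ (by simp; rw [h3]; abel)
      · exact absurd rfl hij
      · rcases h1 with rfl | rfl | rfl
        · exact key 0 1 (by decide) _ (by simp; rw [h3]; abel)
        · exact key 2 3 (by decide) _ (by simp)
        · exact key 1 0 (by decide) _ (by simp; rw [h3]; abel)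
      · rcases h1 with rfl | rfl | rfl
        · exact key 0 2 (by decide) _ (by simp; rw [h3]; abel)
        · exact key 3 1 (by decide) _ (by simp)
        · exact key 2 0 (by decide) _ (by simp; rw [h3]; abel)
      · rcases h1 with rfl | rfl | rfl
        · exact key 0 1 (by decide) _ (by simp; rw [h3]; abel)
        · exact key 3 2 (by decide) _ (by simp)
        · exact key 1 0 (by decide) _ (by simp; rw [h3]; abel)
      · exact absurd rfl hij

end LT
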