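import Pool.Agent.Helper81.LT.Chain

/-!
Project LT (MP_b8862a_ag), block N1: the short roots.
-/

set_option linter.unusedSectionVars false

open Module PF TF

namespace LT

variable {E : Type*} [NormedAddCommGroup E] [InnerProductSpace ℝ E] {Φ : Finset E} {m : ℕ} {u : Fin m → E}

/-- the short roots of type `E_6` -/
def PE6 (Φ : Finset E) (u : Fin 6 → E) (z : E) : Prop :=
  Gm 6 u ∧ inner ℝ z z = (1 / 2 : ℝ) ∧ (∀ i, inner ℝ (u i) z = (0 : ℝ)) ∧
    ∀ a, a ∈ Psi Φ ↔ (∃ i j, i ≠ j ∧ a = u i - u j) ∨ a = (2 : ℝ) • z ∨ a = -((2 : ℝ) • z) ∨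
      ∃ S : Finset (Fin 6), S.card = 3 ∧ (a = ∑ i ∈ S, u i + z ∨ a = ∑ i ∈ S, u i - z)

/-- the short roots of type `E_7` -/
def PE7 (Φ : Finset E) (u : Fin 8 → E) : Prop :=
  Gm 8 u ∧ ∀ a, a ∈ Psi Φ ↔ (∃ i j, i ≠ j ∧ a = u i - u j) ∨ ∃ S : Finset (Fin 8), S.card = 4 ∧ a = ∑ i ∈ S, u i

/-- the short roots of type `E_8` -/
def PE8 (Φ : Finset E) (u : Fin 9 → E) : Prop :=
  Gm 9 u ∧ ∀ a, a ∈ Psi Φ ↔ (∃ i j, i ≠ j ∧ a = u i - u j) ∨
    ∃ S : Finset (Fin 9), S.card = 3 ∧ (a = ∑ i ∈ S, u i ∨ a = -∑ i ∈ S, u i)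

/-- the short roots of type `A` -/
def PA (Φ : Finset E) (m : ℕ) (u : Fin m → E) : Prop :=
  Gm m u ∧ ∀ x, x ∈ Psi Φ ↔ ∃ i j, i ≠ j ∧ x = u i - u j

/-- the short roots of type `D` -/
def PD (Φ : Finset E) (m : ℕ) (e : Fin m → E) : Prop :=
  Orthonormal ℝ e ∧ ∀ y, y ∈ Psi Φ ↔ ∃ i j, i ≠ j ∧ (y = e i + e j ∨ y = e i - e j ∨ y = -(e i + e j))

namespace Mz

variable (M : Mz Φ m u) (h : NRS Φ)
include M h

theorem neg_sm {S : Finset (Fin m)} {w : E} (hx : ∑ i ∈ S, u i + w ∈ Psi Φ) : ∑ i ∈ Sᶜ, u i + -w ∈ Psi Φ := by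
  have h1 := h.neg_Psi hx
  rw [neg_add] at h1
  rw [M.gram.sm_compl]
  exact h1

theorem card_ne_one {S : Finset (Fin m)} {w : E} (hw : ∀ t, inner ℝ w (u t) = (0 : ℝ))
    (hx : ∑ i ∈ S, u i + w ∈ Psi Φ) : S.card ≠ 1 := by
  classical
  intro hc
  obtain ⟨i, hi⟩ := Finset.card_eq_one.1 hc
  refine M.max hx i fun j hj => ?_
  rw [_root_.inner_sub_right, inner_add_left, inner_add_left, hw, hw, M.gram.inner_sm, M.gram.inner_sm, hi,
    if_pos (Finset.mem_singleton_self i), if_neg (by simpa using hj)]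
  ring

theorem inner_prof {S T : Finset (Fin m)} {w z : E} (hw : ∀ t, inner ℝ w (u t) = (0 : ℝ))
    (hz : ∀ t, inner ℝ z (u t) = (0 : ℝ)) :
    inner ℝ (∑ i ∈ S, u i + w) (∑ i ∈ T, u i + z) = ((S ∩ T).card : ℝ) - S.card * T.card / m + inner ℝ w z := by
  have h1 : inner ℝ w (∑ i ∈ T, u i) = (0 : ℝ) := by
    rw [inner_sum]
    exact Finset.sum_eq_zero fun t _ => hw t
  have h2 : inner ℝ (∑ i ∈ S, u i) z = (0 : ℝ) := by
    rw [real_inner_comm, inner_sum]
    exact Finset.sum_eq_zero fun t _ => hz t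
  rw [inner_add_left, inner_add_right, inner_add_right, h1, h2, M.gram.inner_sm_sm]
  ring

theorem norm_prof {S : Finset (Fin m)} {w : E} (hw : ∀ t, inner ℝ w (u t) = (0 : ℝ))
    (hx : ∑ i ∈ S, u i + w ∈ Psi Φ) : inner ℝ w w = (2 : ℝ) - (S.card - S.card * S.card / m) := by
  have h1 := M.inner_prof h (S := S) (T := S) hw hw
  rw [(mem_Psi.1 hx).2, Finset.inter_self] at h1
  linarith

/-- two disjoint sets with three elements -/
theorem disj {S T : Finset (Fin m)} {w : E} (hw : ∀ t, inner ℝ w (u t) = (0 : ℝ))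
    (hS : ∑ i ∈ S, u i + w ∈ Psi Φ) (hSc : S.card = 3) (hT : T.card = 3) (hST : Disjoint S T) (hm : 1 ≤ m) :
    ∑ i ∈ S ∪ T, u i + (2 : ℝ) • w ∈ Psi Φ := by
  have hm0 : (m : ℝ) ≠ 0 := by positivity
  have hT' := M.all h hw hS (T := T) (by rw [hT, hSc])
  have h1 := M.norm_prof h hw hS
  have h2 := M.inner_prof h (S := S) (T := T) hw hw
  rw [Finset.disjoint_iff_inter_eq_empty.1 hST, Finset.card_empty, h1, hSc, hT] at h2
  have h3 := h.add_Psi hS hT' (by
    rw [h2]
    field_simp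
    push_cast
    ring)
  rw [Finset.sum_union hST, two_smul]
  have e : ∑ i ∈ S, u i + ∑ i ∈ T, u i + (w + w) = ∑ i ∈ S, u i + w + (∑ i ∈ T, u i + w) := by abel
  rw [e]
  exact h3

end Mz

theorem psi_cls (h : NRS Φ) (hnb : ∃ g ∈ Psi Φ, (Nb Φ g).Nonempty) :
    (∃ (m : ℕ) (u : Fin m → E), 3 ≤ m ∧ PA Φ m u) ∨ (∃ (m : ℕ) (e : Fin m → E), 4 ≤ m ∧ PD Φ m e) ∨
      (∃ u z, PE6 Φ u z) ∨ (∃ u, PE7 Φ u) ∨ ∃ u, PE8 Φ u := by
  classical
  obtain ⟨m, u, M⟩ := exists_Mz h
  have hm3 : 3 ≤ m := by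
    obtain ⟨g, hg, d, hd⟩ := hnb
    rw [mem_Nb] at hd
    have hne : g ≠ d := by
      rintro rfl
      have := (mem_Psi.1 hg).2
      rw [hd.2] at this
      norm_num at this
    have h1 := M.size {g, d} (by
      intro y hy
      rw [Finset.mem_insert, Finset.mem_singleton] at hy
      rcases hy with rfl | rfl
      · exact hg
      · exact hd.1) (by
      intro y hy z hz hyz
      rw [Finset.mem_insert, Finset.mem_singleton] at hy hz
      rcases hy with rfl | rfl <;> rcases hz with rfl | rfl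
      · exact absurd rfl hyz
      · rw [real_inner_comm]; exact hd.2
      · exact hd.2
      · exact absurd rfl hyz)
    rw [Finset.card_pair hne] at h1
    omega
  have hm0 : (0 : ℝ) < m := by positivity
  have hm0' : (m : ℝ) ≠ 0 := hm0.ne'
  by_cases hA : ∀ x ∈ Psi Φ, (∀ i j, i ≠ j → x ≠ u i - u j) → ∀ t, inner ℝ x (u t) = (0 : ℝ)
  · exact Or.inl ⟨m, u, hm3, M.gram, M.caseA h hm3 hA⟩
  right
  by_cases hD : ∃ (S : Finset (Fin m)) (w : E), S.card = 2 ∧ (∀ t, inner ℝ w (u t) = (0 : ℝ)) ∧ ∑ i ∈ S, u i + w ∈ Psi Φ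
  · left
    obtain ⟨S, w, hS, hw, hx⟩ := hD
    have h4 : 4 ≤ m := by
      by_contra hcon
      have hm : m = 3 := by omega
      refine M.card_ne_one h (S := Sᶜ) (w := -w) (fun t => by rw [inner_neg_left, hw, neg_zero]) (M.neg_sm h hx) ?_
      rw [Finset.card_compl, Fintype.card_fin]
      omega
    obtain ⟨e, he, h5⟩ := M.caseD h h4 hw (by
      rw [M.norm_prof h hw hx, hS]
      field_simp
      push_cast
      ring) (by
      intro i j hij
      have h6 := M.all h hw hx (T := {i, j}) (by rw [Finset.card_pair hij, hS])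
      rw [Finset.sum_pair hij] at h6
      exact h6)
    exact ⟨m, e, h4, he, h5⟩
  right
  push Not at hA hD
  -- the cardinalities
  have hcard : ∀ (S : Finset (Fin m)) (w : E), (∀ t, inner ℝ w (u t) = (0 : ℝ)) → ∑ i ∈ S, u i + w ∈ Psi Φ →
      S.card = 0 ∨ S.card = m ∨ (3 ≤ S.card ∧ S.card + 3 ≤ m ∧ S.card * (m - S.card) ≤ 2 * m) := by
    intro S w hw hx
    have hle : S.card ≤ m := by
      have := Finset.card_le_univ S
      rwa [Fintype.card_fin] at this
    have hcc : Sᶜ.card = m - S.card := by rw [Finset.card_compl, Fintype.card_fin]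
    have hw' : ∀ t, inner ℝ (-w) (u t) = (0 : ℝ) := fun t => by rw [inner_neg_left, hw, neg_zero]
    have h1 := M.card_ne_one h hw hx
    have h2 := M.card_ne_one h hw' (M.neg_sm h hx)
    have h3 : S.card ≠ 2 := fun hc => hD S w hc hw hx
    have h4 : Sᶜ.card ≠ 2 := fun hc => hD Sᶜ (-w) hc hw' (M.neg_sm h hx)
    rw [hcc] at h2 h4
    by_cases h5 : S.card = 0
    · exact Or.inl h5
    by_cases h6 : S.card = m
    · exact Or.inr (Or.inl h6)
    right; right
    refine ⟨by omega, by omega, ?_⟩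
    have h7 := M.norm_prof h hw hx
    have h8 : (0 : ℝ) ≤ inner ℝ w w := real_inner_self_nonneg
    rw [h7] at h8
    have h9 : (S.card : ℝ) * (m - S.card) ≤ 2 * m := by
      have h10 : (S.card : ℝ) - S.card * S.card / m ≤ 2 := by linarith
      have h11 : ((S.card : ℝ) - S.card * S.card / m) * m ≤ 2 * m := mul_le_mul_of_nonneg_right h10 hm0.le
      have h12 : ((S.card : ℝ) - S.card * S.card / m) * m = S.card * (m - S.card) := by
        field_simp
      linarith
    have h13 : ((S.card * (m - S.card) : ℕ) : ℝ) ≤ ((2 * m : ℕ) : ℝ) := by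
      rw [Nat.cast_mul, Nat.cast_sub hle]
      push_cast
      exact h9
    exact_mod_cast h13
  obtain ⟨x, hx, hne, t0, ht0⟩ := hA
  obtain ⟨S, w, hxS, hw, h2, h3, h4⟩ := M.prof h (by omega) hx hne
  have hxS' : ∑ i ∈ S, u i + w ∈ Psi Φ := by rw [← hxS]; exact hx
  have hS0 : S.card ≠ 0 := by
    intro hc
    rw [Finset.card_eq_zero] at hc
    apply ht0
    rw [hxS, hc, Finset.sum_empty, zero_add, hw]
  -- one with at most half of the elements
  obtain ⟨S, w, hw, hxS, hk3, hk, hkm⟩ : ∃ (S : Finset (Fin m)) (w : E), (∀ t, inner ℝ w (u t) = (0 : ℝ)) ∧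
      ∑ i ∈ S, u i + w ∈ Psi Φ ∧ 3 ≤ S.card ∧ 2 * S.card ≤ m ∧ S.card * (m - S.card) ≤ 2 * m := by
    rcases hcard S w hw hxS' with h5 | h5 | ⟨h5, h6, h7⟩
    · exact absurd h5 hS0
    · omega
    by_cases h8 : 2 * S.card ≤ m
    · exact ⟨S, w, hw, hxS', h5, h8, h7⟩
    · have hw' : ∀ t, inner ℝ (-w) (u t) = (0 : ℝ) := fun t => by rw [inner_neg_left, hw, neg_zero]
      have hcc : Sᶜ.card = m - S.card := by rw [Finset.card_compl, Fintype.card_fin]
      refine ⟨Sᶜ, -w, hw', M.neg_sm h hxS', ?_, ?_, ?_⟩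
      · omega
      · omega
      · rw [hcc]
        have h9 : m - (m - S.card) = S.card := by omega
        rw [h9, mul_comm]
        exact h7
  have hm6 : 6 ≤ m := by omega
  have hm9 : m ≤ 9 := by
    by_contra hcon
    obtain ⟨r, hr⟩ : ∃ r, m = S.card + r := ⟨m - S.card, by omega⟩
    have h5 : m - S.card = r := by omega
    rw [h5] at hkm
    have h6 : 3 ≤ r := by omega
    nlinarith
  have hk4 : S.card = 3 ∨ (S.card = 4 ∧ m = 8) := by
    have h5 : S.card ≤ 4 := by omega
    have h6 : S.card = 3 ∨ S.card = 4 := by omega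
    rcases h6 with h6 | h6
    · exact Or.inl h6
    · rw [h6] at hkm
      right
      exact ⟨h6, by omega⟩
  have hww := M.norm_prof h hw hxS
  have hmm : m = 6 ∨ m = 7 ∨ m = 8 ∨ m = 9 := by omega
  -- no set of three elements for `m = 7, 8`
  have hno3 : m = 7 ∨ m = 8 → ∀ (S : Finset (Fin m)) (w : E), (∀ t, inner ℝ w (u t) = (0 : ℝ)) →
      ∑ i ∈ S, u i + w ∈ Psi Φ → S.card ≠ 3 := by
    intro hm S w hw hx hc
    obtain ⟨T, hT, hTc⟩ := Finset.exists_subset_card_eq (s := Sᶜ) (n := 3) (by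
      rw [Finset.card_compl, Fintype.card_fin]
      omega)
    have hdis : Disjoint S T := by
      rw [Finset.disjoint_left]
      intro a ha hb
      exact (Finset.mem_compl.1 (hT hb)) ha
    have h5 := M.disj h hw hx hc hTc hdis (by omega)
    have h6 : (S ∪ T).card = 6 := by rw [Finset.card_union_of_disjoint hdis, hc, hTc]
    rcases hcard (S ∪ T) ((2 : ℝ) • w) (fun t => by rw [inner_smul_left, hw, mul_zero]) h5 with h7 | h7 | ⟨-, h7, -⟩ <;> omega
  rcases hmm with rfl | rfl | rfl | rfl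
  · -- E6
    left
    have hc : S.card = 3 := by omega
    have hz : inner ℝ w w = (1 / 2 : ℝ) := by
      rw [hww, hc]
      norm_num
    have hall : ∀ T : Finset (Fin 6), T.card = 3 → ∑ i ∈ T, u i + w ∈ Psi Φ := fun T hT =>
      M.all h hw hxS (by rw [hT, hc])
    have hall' : ∀ T : Finset (Fin 6), T.card = 3 → ∑ i ∈ T, u i - w ∈ Psi Φ := by
      intro T hT
      have h5 := M.neg_sm h (hall Tᶜ (by rw [Finset.card_compl, Fintype.card_fin, hT]))
      rw [compl_compl, ← sub_eq_add_neg] at h5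
      exact h5
    have h2w : (2 : ℝ) • w ∈ Psi Φ := by
      have h5 := M.disj h hw hxS hc (T := Sᶜ) (by rw [Finset.card_compl, Fintype.card_fin, hc]) disjoint_compl_right
        (by norm_num)
      rw [Finset.union_compl, M.gram.sum_zero, zero_add] at h5
      exact h5
    have huw : ∀ i, inner ℝ (u i) w = (0 : ℝ) := fun i => by rw [real_inner_comm]; exact hw i
    have hback : ∀ a, ((∃ i j, i ≠ j ∧ a = u i - u j) ∨ a = (2 : ℝ) • w ∨ a = -((2 : ℝ) • w) ∨
        ∃ S : Finset (Fin 6), S.card = 3 ∧ (a = ∑ i ∈ S, u i + w ∨ a = ∑ i ∈ S, u i - w)) → a ∈ Psi Φ := by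
      rintro a (⟨i, j, hij, rfl⟩ | rfl | rfl | ⟨T, hT, rfl | rfl⟩)
      · exact M.mem i j hij
      · exact h2w
      · exact h.neg_Psi h2w
      · exact hall T hT
      · exact hall' T hT
    refine ⟨u, w, M.gram, hz, huw, fun a => ⟨fun ha => ?_, hback a⟩⟩
    obtain ⟨g, hg, hu⟩ := M.nb h hm3
    have h1 := h.irr_Psi hg hu ((Psi Φ).filter fun a => (∃ i j, i ≠ j ∧ a = u i - u j) ∨ a = (2 : ℝ) • w ∨
      a = -((2 : ℝ) • w) ∨ ∃ S : Finset (Fin 6), S.card = 3 ∧ (a = ∑ i ∈ S, u i + w ∨ a = ∑ i ∈ S, u i - w))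
      (Finset.filter_subset _ _) ⟨_, Finset.mem_filter.2 ⟨h2w, Or.inr (Or.inl rfl)⟩⟩ ?_
    · rw [← h1, Finset.mem_filter] at ha
      exact ha.2
    · intro a ha b hb hbn
      rw [Finset.mem_filter] at ha hbn
      have hbn' := fun e => hbn ⟨hb, e⟩
      -- the profile of `b`
      obtain ⟨T, z, hbT, hz', -, -, -⟩ := M.prof h (by norm_num) hb fun i j hij e => hbn' (Or.inl ⟨i, j, hij, e⟩)
      have hbT' : ∑ i ∈ T, u i + z ∈ Psi Φ := by rw [← hbT]; exact hb
      have hTle : T.card ≤ 6 := by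
        have := Finset.card_le_univ T
        rwa [Fintype.card_fin] at this
      have hbu : ∀ t, inner ℝ b (u t) = (0 : ℝ) := by
        rcases hcard T z hz' hbT' with h5 | h5 | ⟨h5, h6, -⟩
        · intro t
          rw [Finset.card_eq_zero] at h5
          rw [hbT, h5, Finset.sum_empty, zero_add, hz']
        · intro t
          have h6 : T = Finset.univ := by
            rw [← Finset.card_eq_iff_eq_univ, h5, Fintype.card_fin]
          rw [hbT, h6, M.gram.sum_zero, zero_add, hz']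
        · exfalso
          have h7 : T.card = 3 := by omega
          have h8 : inner ℝ z z = (1 / 2 : ℝ) := by
            rw [M.norm_prof h hz' hbT', h7]
            norm_num
          have h9 := M.inner_prof h (S := T) (T := T) hz' hw
          rw [Finset.inter_self, h7] at h9
          have h10 : (0 : ℝ) ≤ inner ℝ (z + w) (z + w) := real_inner_self_nonneg
          rw [inner_add_left, inner_add_right, inner_add_right, real_inner_comm z w, h8, hz] at h10
          rcases h.inner_Psi hbT' (hall T h7) (fun e => hbn' (Or.inr (Or.inr (Or.inr ⟨T, h7, Or.inl (by rw [hbT, e])⟩))))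
            (fun e => by
              have h11 : inner ℝ (∑ i ∈ T, u i + z) (∑ i ∈ T, u i + w) = (-2 : ℝ) := by
                rw [e, inner_neg_left, (mem_Psi.1 (hall T h7)).2]
              rw [h9] at h11
              push_cast at h11
              linarith) with h11 | h11 | h11
          · rw [h9] at h11; push_cast at h11; linarith
          · -- `z = - w`
            rw [h9] at h11
            have h12 : inner ℝ z w = (-(1 / 2) : ℝ) := by push_cast at h11; linarith
            have h13 : z + w = 0 := by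
              rw [← inner_self_eq_zero (𝕜 := ℝ), inner_add_left, inner_add_right, inner_add_right, real_inner_comm z w,
                h8, hz, h12]
              norm_num
            refine hbn' (Or.inr (Or.inr (Or.inr ⟨T, h7, Or.inr ?_⟩)))
            rw [hbT, eq_neg_of_add_eq_zero_left h13]
            abel
          · rw [h9] at h11; push_cast at h11; linarith
      have hub : ∀ t, inner ℝ (u t) b = (0 : ℝ) := fun t => by rw [real_inner_comm]; exact hbu t
      have hsb : ∀ T : Finset (Fin 6), inner ℝ (∑ i ∈ T, u i) b = (0 : ℝ) := fun T => by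
        rw [sum_inner]
        exact Finset.sum_eq_zero fun t _ => hub t
      have hwb : inner ℝ w b = (0 : ℝ) := by
        have h5 := h.inner_Psi hb h2w (fun e => hbn' (Or.inr (Or.inl e))) (fun e => hbn' (Or.inr (Or.inr (Or.inl e))))
        have h6 := h.inner_Psi hb (hall S hc) (fun e => hbn' (Or.inr (Or.inr (Or.inr ⟨S, hc, Or.inl e⟩)))) (by
          intro e
          have h7 : inner ℝ b (∑ i ∈ S, u i + w) = (-2 : ℝ) := by
            rw [e, inner_neg_left, (mem_Psi.1 (hall S hc)).2]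
          have h8 : inner ℝ b (∑ i ∈ S, u i) = (0 : ℝ) := by rw [real_inner_comm]; exact hsb S
          rw [inner_add_right, h8, zero_add] at h7
          have h9 : inner ℝ b ((2 : ℝ) • w) = (-4 : ℝ) := by rw [inner_smul_right, h7]; norm_num
          rw [h9] at h5
          norm_num at h5)
        have h8 : inner ℝ b (∑ i ∈ S, u i) = (0 : ℝ) := by rw [real_inner_comm]; exact hsb S
        rw [inner_smul_right] at h5
        rw [inner_add_right, h8, zero_add] at h6
        rw [real_inner_comm]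
        rcases h6 with h6 | h6 | h6
        · exact h6
        · rw [h6] at h5; norm_num at h5
        · rw [h6] at h5; norm_num at h5
      obtain ⟨-, h5⟩ := ha
      rcases h5 with ⟨i, j, -, rfl⟩ | rfl | rfl | ⟨T, -, rfl | rfl⟩
      · rw [_root_.inner_sub_left, hub, hub, sub_zero]
      · rw [inner_smul_left, hwb, mul_zero]
      · rw [inner_neg_left, inner_smul_left, hwb, mul_zero, neg_zero]
      · rw [inner_add_left, hsb, hwb, add_zero]
      · rw [_root_.inner_sub_left, hsb, hwb, sub_zero]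
  · exfalso
    rcases hk4 with h5 | ⟨-, h5⟩
    · exact hno3 (Or.inl rfl) S w hw hxS h5
    · omega
  · -- E7
    right; left
    have hc : S.card = 4 := by
      rcases hk4 with h5 | ⟨h5, -⟩
      · exact absurd h5 (hno3 (Or.inr rfl) S w hw hxS)
      · exact h5
    have hz0 : ∀ (T : Finset (Fin 8)) (z : E), (∀ t, inner ℝ z (u t) = (0 : ℝ)) → ∑ i ∈ T, u i + z ∈ Psi Φ →
        T.card = 4 → z = 0 := by
      intro T z hz hx hT
      have h5 := M.norm_prof h hz hx
      rw [hT] at h5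
      norm_num at h5
      exact h5
    have hw0 := hz0 S w hw hxS hc
    have hall : ∀ T : Finset (Fin 8), T.card = 4 → ∑ i ∈ T, u i ∈ Psi Φ := fun T hT => by
      have h5 := M.all h hw hxS (T := T) (by rw [hT, hc])
      rwa [hw0, add_zero] at h5
    have hback : ∀ a, ((∃ i j, i ≠ j ∧ a = u i - u j) ∨ ∃ S : Finset (Fin 8), S.card = 4 ∧ a = ∑ i ∈ S, u i) →
        a ∈ Psi Φ := by
      rintro a (⟨i, j, hij, rfl⟩ | ⟨T, hT, rfl⟩)
      · exact M.mem i j hij
      · exact hall T hT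
    refine ⟨u, M.gram, fun a => ⟨fun ha => ?_, hback a⟩⟩
    obtain ⟨g, hg, hu⟩ := M.nb h hm3
    have h1 := h.irr_Psi hg hu ((Psi Φ).filter fun a => (∃ i j, i ≠ j ∧ a = u i - u j) ∨
      ∃ S : Finset (Fin 8), S.card = 4 ∧ a = ∑ i ∈ S, u i)
      (Finset.filter_subset _ _) ⟨_, Finset.mem_filter.2 ⟨hall S hc, Or.inr ⟨S, hc, rfl⟩⟩⟩ ?_
    · rw [← h1, Finset.mem_filter] at ha
      exact ha.2
    · intro a ha b hb hbn
      rw [Finset.mem_filter] at ha hbn
      have hbn' := fun e => hbn ⟨hb, e⟩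
      obtain ⟨T, z, hbT, hz', -, -, -⟩ := M.prof h (by norm_num) hb fun i j hij e => hbn' (Or.inl ⟨i, j, hij, e⟩)
      have hbT' : ∑ i ∈ T, u i + z ∈ Psi Φ := by rw [← hbT]; exact hb
      have hub : ∀ t, inner ℝ (u t) b = (0 : ℝ) := by
        intro t
        rw [real_inner_comm]
        rcases hcard T z hz' hbT' with h5 | h5 | ⟨h5, h6, -⟩
        · rw [Finset.card_eq_zero] at h5
          rw [hbT, h5, Finset.sum_empty, zero_add, hz']
        · have h6 : T = Finset.univ := by
            rw [← Finset.card_eq_iff_eq_univ, h5, Fintype.card_fin]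
          rw [hbT, h6, M.gram.sum_zero, zero_add, hz']
        · exfalso
          have h7 : T.card = 3 ∨ T.card = 4 ∨ T.card = 5 := by omega
          rcases h7 with h7 | h7 | h7
          · exact hno3 (Or.inr rfl) T z hz' hbT' h7
          · refine hbn' (Or.inr ⟨T, h7, ?_⟩)
            rw [hbT, hz0 T z hz' hbT' h7, add_zero]
          · exact hno3 (Or.inr rfl) Tᶜ (-z) (fun t => by rw [inner_neg_left, hz', neg_zero]) (M.neg_sm h hbT')
              (by rw [Finset.card_compl, Fintype.card_fin, h7])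
      have hsb : ∀ T : Finset (Fin 8), inner ℝ (∑ i ∈ T, u i) b = (0 : ℝ) := fun T => by
        rw [sum_inner]
        exact Finset.sum_eq_zero fun t _ => hub t
      obtain ⟨-, h5⟩ := ha
      rcases h5 with ⟨i, j, -, rfl⟩ | ⟨T, -, rfl⟩
      · rw [_root_.inner_sub_left, hub, hub, sub_zero]
      · exact hsb T
  · -- E8
    right; right
    have hc : S.card = 3 := by
      rcases hk4 with h5 | ⟨-, h5⟩
      · exact h5
      · omega
    have hz0 : ∀ (T : Finset (Fin 9)) (z : E), (∀ t, inner ℝ z (u t) = (0 : ℝ)) → ∑ i ∈ T, u i + z ∈ Psi Φ →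
        T.card = 3 → z = 0 := by
      intro T z hz hx hT
      have h5 := M.norm_prof h hz hx
      rw [hT] at h5
      norm_num at h5
      exact h5
    have hw0 := hz0 S w hw hxS hc
    have hall : ∀ T : Finset (Fin 9), T.card = 3 → ∑ i ∈ T, u i ∈ Psi Φ := fun T hT => by
      have h5 := M.all h hw hxS (T := T) (by rw [hT, hc])
      rwa [hw0, add_zero] at h5
    have hback : ∀ a, ((∃ i j, i ≠ j ∧ a = u i - u j) ∨ ∃ S : Finset (Fin 9), S.card = 3 ∧
        (a = ∑ i ∈ S, u i ∨ a = -∑ i ∈ S, u i)) → a ∈ Psi Φ := by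
      rintro a (⟨i, j, hij, rfl⟩ | ⟨T, hT, rfl | rfl⟩)
      · exact M.mem i j hij
      · exact hall T hT
      · exact h.neg_Psi (hall T hT)
    refine ⟨u, M.gram, fun a => ⟨fun ha => ?_, hback a⟩⟩
    obtain ⟨g, hg, hu⟩ := M.nb h hm3
    have h1 := h.irr_Psi hg hu ((Psi Φ).filter fun a => (∃ i j, i ≠ j ∧ a = u i - u j) ∨
      ∃ S : Finset (Fin 9), S.card = 3 ∧ (a = ∑ i ∈ S, u i ∨ a = -∑ i ∈ S, u i))
      (Finset.filter_subset _ _) ⟨_, Finset.mem_filter.2 ⟨hall S hc, Or.inr ⟨S, hc, Or.inl rfl⟩⟩⟩ ?_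
    · rw [← h1, Finset.mem_filter] at ha
      exact ha.2
    · intro a ha b hb hbn
      rw [Finset.mem_filter] at ha hbn
      have hbn' := fun e => hbn ⟨hb, e⟩
      obtain ⟨T, z, hbT, hz', -, -, -⟩ := M.prof h (by norm_num) hb fun i j hij e => hbn' (Or.inl ⟨i, j, hij, e⟩)
      have hbT' : ∑ i ∈ T, u i + z ∈ Psi Φ := by rw [← hbT]; exact hb
      have hub : ∀ t, inner ℝ (u t) b = (0 : ℝ) := by
        intro t
        rw [real_inner_comm]
        rcases hcard T z hz' hbT' with h5 | h5 | ⟨h5, h6, h8⟩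
        · rw [Finset.card_eq_zero] at h5
          rw [hbT, h5, Finset.sum_empty, zero_add, hz']
        · have h6 : T = Finset.univ := by
            rw [← Finset.card_eq_iff_eq_univ, h5, Fintype.card_fin]
          rw [hbT, h6, M.gram.sum_zero, zero_add, hz']
        · exfalso
          have h7 : T.card = 3 ∨ T.card = 4 ∨ T.card = 5 ∨ T.card = 6 := by omega
          rcases h7 with h7 | h7 | h7 | h7
          · refine hbn' (Or.inr ⟨T, h7, Or.inl ?_⟩)
            rw [hbT, hz0 T z hz' hbT' h7, add_zero]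
          · rw [h7] at h8
            norm_num at h8
          · rw [h7] at h8
            norm_num at h8
          · have h9 : Tᶜ.card = 3 := by rw [Finset.card_compl, Fintype.card_fin, h7]
            have h10 := hz0 Tᶜ (-z) (fun t => by rw [inner_neg_left, hz', neg_zero]) (M.neg_sm h hbT') h9
            refine hbn' (Or.inr ⟨Tᶜ, h9, Or.inr ?_⟩)
            rw [hbT, neg_eq_zero.1 h10, add_zero, M.gram.sm_compl, neg_neg]
      have hsb : ∀ T : Finset (Fin 9), inner ℝ (∑ i ∈ T, u i) b = (0 : ℝ) := fun T => by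
        rw [sum_inner]
        exact Finset.sum_eq_zero fun t _ => hub t
      obtain ⟨-, h5⟩ := ha
      rcases h5 with ⟨i, j, -, rfl⟩ | ⟨T, -, rfl | rfl⟩
      · rw [_root_.inner_sub_left, hub, hub, sub_zero]
      · exact hsb T
      · rw [inner_neg_left, hsb, neg_zero]

end LT
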