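import Pool.Agent.Helper81.LT.SurfA

/-!
Project LT (MP_b8862a_ag): the Hodge numbers of the smooth surfaces in the three-dimensional projective space are not
exceptional. `d = t + 3` is the degree.
-/

namespace LT

/-- no powers -/
theorem pow81 {t s d k : ℕ} (ht : 2 ≤ t) (hk : 2 ≤ k) (hs : 6 * s = (t + 2) * (t + 1) * t)
    (hn : (t + 2) * (t ^ 2 + 3 * t + 3) = d ^ k) (hd : d ^ (k - 1) ∣ s) : False := by
  have e0 : t ^ 2 + 3 * t + 3 = (t + 2) * (t + 1) + 1 := by ring
  have c1 : Nat.Coprime (t + 2) (t ^ 2 + 3 * t + 3) := by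
    rw [e0, mul_comm]
    exact (Nat.coprime_mul_right_add_right (t + 2) 1 (t + 1)).2 (Nat.coprime_one_right _)
  have c2 : Nat.Coprime (t + 1) (t ^ 2 + 3 * t + 3) := by
    rw [e0]
    exact (Nat.coprime_mul_right_add_right (t + 1) 1 (t + 2)).2 (Nat.coprime_one_right _)
  obtain ⟨b, hb⟩ := exists_eq_pow_of_mul_eq_pow (a := t ^ 2 + 3 * t + 3) (b := t + 2) (c := d) (k := k)
    (by rw [Nat.isUnit_iff]; exact Nat.Coprime.symm c1) (by rw [mul_comm]; exact hn)
  have hbd : b ∣ d := by
    rw [← Nat.pow_dvd_pow_iff (show k ≠ 0 by omega), ← hb, ← hn]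
    exact Dvd.intro_left _ rfl
  obtain ⟨p, hp⟩ : ∃ p, k = p + 1 := ⟨k - 1, by omega⟩
  have hp1 : 1 ≤ p := by omega
  have hk1 : k - 1 = p := by omega
  rw [hk1] at hd
  have h1 : b ^ p ∣ (t + 2) * (t + 1) * t := by
    rw [← hs]
    exact Dvd.dvd.mul_left ((pow_dvd_pow_of_dvd hbd p).trans hd) 6
  have hbW : b ^ p ∣ t ^ 2 + 3 * t + 3 := by
    rw [hb, hp]
    exact pow_dvd_pow b (by omega)
  have d1 : Nat.Coprime (b ^ p) (t + 2) := Nat.Coprime.coprime_dvd_left hbW c1.symm
  have d2 : Nat.Coprime (b ^ p) (t + 1) := Nat.Coprime.coprime_dvd_left hbW c2.symm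
  have h2 : b ^ p ∣ t := by
    rw [mul_assoc] at h1
    exact d2.dvd_of_dvd_mul_left (d1.dvd_of_dvd_mul_left h1)
  have h3 : b ^ p ∣ 3 := by
    have h4 : b ^ p ∣ t * (t + 3) := Dvd.dvd.mul_right h2 _
    have h5 : t ^ 2 + 3 * t + 3 = t * (t + 3) + 3 := by ring
    rw [h5] at hbW
    exact (Nat.dvd_add_right h4).1 hbW
  have h4 : b ^ p = 1 ∨ b ^ p = 3 := (Nat.dvd_prime Nat.prime_three).1 h3
  rcases h4 with h4 | h4
  · have h5 : b = 1 := by
      rcases Nat.pow_eq_one.1 h4 with h | h
      · exact h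
      · omega
    rw [h5, one_pow] at hb
    nlinarith
  · -- `b ^ p = 3`, so `b = 3`, `p = 1`
    have h5 : b = 3 ∧ p = 1 := by
      have hp3 : (b ^ p).Prime := by rw [h4]; exact Nat.prime_three
      have hp1' : p = 1 := hp3.eq_one_of_pow
      rw [hp1', pow_one] at h4
      exact ⟨h4, hp1'⟩
    rw [hp, h5.1, h5.2] at hb
    norm_num at hb
    have : t < 3 := by nlinarith
    interval_cases t <;> omega

/-- **Surfaces in the projective space.** -/
theorem surf {t s h : ℕ} (ht : 2 ≤ t) (hs : 6 * s = (t + 2) * (t + 1) * t) (hh : 3 * h = (t + 2) * (2 * t ^ 2 + 8 * t + 9))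
    (hsq : ¬ IsSquare ((t + 2) * (t ^ 2 + 3 * t + 3) + 1)) : ¬ Exc s h := by
  have hn : 2 * s + h = (t + 2) * (t ^ 2 + 3 * t + 3) := by nlinarith
  have h4s : 4 * s < h := by nlinarith
  have hs0 : 4 ≤ s := by nlinarith
  -- the ratio equation
  have hrat : ∀ K Z : ℕ, s * K = (2 * s + h) * Z → (t + 1) * t * K = 6 * (t ^ 2 + 3 * t + 3) * Z := by
    intro K Z h1
    have h2 : (t + 2) * ((t + 1) * t * K) = (t + 2) * (6 * (t ^ 2 + 3 * t + 3) * Z) := by
      calc (t + 2) * ((t + 1) * t * K) = ((t + 2) * (t + 1) * t) * K := by ring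
        _ = 6 * (s * K) := by rw [← hs]; ring
        _ = 6 * ((2 * s + h) * Z) := by rw [h1]
        _ = _ := by rw [hn]; ring
    exact Nat.eq_of_mul_eq_mul_left (by omega) h2
  -- `s` linear
  have hlin : ∀ e : ℕ, e ≤ 2 → 2 * (2 * s + h) = s ^ 2 + 3 * s + e → False := by
    intro e he h1
    rw [hn] at h1
    have h2 : 36 * (2 * ((t + 2) * (t ^ 2 + 3 * t + 3))) = (6 * s) ^ 2 + 18 * (6 * s) + 36 * e := by
      rw [h1]; ring
    rw [hs] at h2
    rcases Nat.lt_or_ge t 4 with h3 | h3
    · have : t = 2 ∨ t = 3 := by omega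
      rcases this with rfl | rfl <;> omega
    · -- divide by `t + 2`
      have h5 : 72 * ((t + 2) * (t ^ 2 + 3 * t + 3)) ≥ (t + 2) * ((t + 2) * ((t + 1) * t) ^ 2 + 18 * ((t + 1) * t)) := by
        have e5 : (t + 2) * ((t + 2) * ((t + 1) * t) ^ 2 + 18 * ((t + 1) * t)) =
            ((t + 2) * (t + 1) * t) ^ 2 + 18 * ((t + 2) * (t + 1) * t) := by ring
        rw [e5]
        omega
      have h6 : 72 * (t ^ 2 + 3 * t + 3) ≥ (t + 2) * ((t + 1) * t) ^ 2 + 18 * ((t + 1) * t) := by
        have h7 : (t + 2) * ((t + 2) * ((t + 1) * t) ^ 2 + 18 * ((t + 1) * t)) ≤ (t + 2) * (72 * (t ^ 2 + 3 * t + 3)) := by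
          linarith
        exact Nat.le_of_mul_le_mul_left h7 (by omega)
      have h7 : 20 ≤ (t + 1) * t := by nlinarith
      have h8 : 6 * 20 * ((t + 1) * t) ≤ (t + 2) * ((t + 1) * t) ^ 2 := by
        have : (t + 2) * ((t + 1) * t) ^ 2 = ((t + 2) * ((t + 1) * t)) * ((t + 1) * t) := by ring
        rw [this]
        exact Nat.mul_le_mul_right _ (Nat.mul_le_mul (by omega) h7)
      have h9 : 4 * t ≤ t * t := Nat.mul_le_mul_right _ h3
      have h10 : 72 * (t ^ 2 + 3 * t + 3) ≥ 6 * 20 * ((t + 1) * t) + 18 * ((t + 1) * t) := le_trans (Nat.add_le_add_right h8 _) h6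
      have e10 : 72 * (t ^ 2 + 3 * t + 3) = 72 * (t * t) + 216 * t + 216 := by ring
      have e11 : 6 * 20 * ((t + 1) * t) + 18 * ((t + 1) * t) = 138 * (t * t) + 138 * t := by ring
      rw [e10, e11] at h10
      omega
  rintro (h1 | ⟨d, k, hk, h1, h2⟩ | ⟨k, l, -, h1, h2⟩ | ⟨M, i, hM, hi, h1, h2⟩ | (⟨r, hr, h1, h2⟩ | ⟨r, i, he, hi, h1, h2⟩) |
    ⟨M, i, hi, h1, h2⟩ | ⟨k, hk, -, h1, h2⟩ | ⟨r, hr, h1, h2⟩ | ⟨h1, h2⟩ | ⟨h1, h2⟩ | ⟨h1, h2⟩ | ⟨h1, h2⟩)
  · omega
  · rw [hn] at h1
    exact pow81 ht hk hs h1 h2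
  · apply hsq
    refine ⟨k + l, ?_⟩
    rw [← hn, h1]
    nlinarith
  · -- exterior powers, orthogonal
    have hch := ch3 M i
    have hN : 2 * s + h = (M + 2).choose (i + 2) := by rw [hch, h1, h2]; ring
    have hr := ch2 M i (by omega)
    rw [← h1, ← hN] at hr
    rcases Nat.eq_zero_or_pos i with rfl | hi0
    · -- `i = 0`
      simp only [Nat.zero_add, Nat.choose_one_right] at h1
      apply hlin 2 le_rfl
      rw [hN, h1, Nat.choose_two_right, ← Nat.mul_div_assoc _ (by
        have := (Nat.even_mul_pred_self (M + 2)).two_dvd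
        exact this)]
      rw [Nat.mul_div_cancel_left _ (by norm_num)]
      have e1 : M + 2 - 1 = M + 1 := by omega
      rw [e1]
      ring
    · refine core81 (a := M + 2) (j := i + 2) ht (by omega) (by omega) ?_ (by rw [← hn, hN])
      have e1 : M + 2 - 1 = M + 1 := by omega
      have e2 : M + 2 - (i + 2) = M - i := by omega
      rw [e1, e2]
      exact hrat _ _ hr
  · apply hlin 0 (by omega)
    obtain ⟨q, rfl⟩ : ∃ q, r = q + 1 := ⟨r - 1, by omega⟩
    rw [h1, h2]
    have e1 : 2 * (q + 1) - 1 = 2 * q + 1 := by omega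
    rw [e1]
    ring
  · -- symplectic
    have c1 := ch3 (2 * r) (i + 2)
    have c2 := ch3 (2 * r) i
    have e4 : i + 2 + 2 = i + 4 := rfl
    have e3 : i + 2 + 1 = i + 3 := rfl
    rw [e4, e3] at c1
    have hN : (2 * r + 2).choose (i + 4) = (2 * s + h) + (2 * r + 2).choose (i + 2) := by omega
    have hr : s * ((2 * r + 3) * (2 * r + 2)) = (2 * s + h) * ((i + 4) * (2 * r - i)) := by
      obtain ⟨M, hM⟩ : ∃ M, M = 2 * r := ⟨_, rfl⟩
      rw [← hM] at h1 h2 hN ⊢
      have hiM : i + 4 ≤ M := by omega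
      have f1 : ((M + 2).choose (i + 4) : ℤ) * (i + 4) = (M + 2).choose (i + 3) * (M - 1 - i) := by
        have := Nat.choose_succ_right_eq (M + 2) (i + 3)
        have h' : M + 2 - (i + 3) = M - 1 - i := by omega
        rw [h'] at this
        have := congrArg (fun x : ℕ => (x : ℤ)) this
        push_cast [Nat.cast_sub (show i ≤ M - 1 by omega), Nat.cast_sub (show 1 ≤ M by omega)] at this
        linear_combination this
      have f2 : ((M + 2).choose (i + 3) : ℤ) * (i + 3) = (M + 2).choose (i + 2) * (M - i) := by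
        have := Nat.choose_succ_right_eq (M + 2) (i + 2)
        have h' : M + 2 - (i + 2) = M - i := by omega
        rw [h'] at this
        have := congrArg (fun x : ℕ => (x : ℤ)) this
        push_cast [Nat.cast_sub (show i ≤ M by omega)] at this
        linear_combination this
      have f3 : (M.choose (i + 3) : ℤ) * ((M + 2) * (M + 1)) = (M + 2).choose (i + 4) * ((i + 4) * (M - 2 - i)) := by
        have := ch2 M (i + 2) (by omega)
        have h' : M - (i + 2) = M - 2 - i := by omega
        rw [h'] at this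
        have := congrArg (fun x : ℕ => (x : ℤ)) this
        push_cast [Nat.cast_sub (show i ≤ M - 2 by omega), Nat.cast_sub (show 2 ≤ M by omega)] at this
        linear_combination this
      have f4 : (M.choose (i + 1) : ℤ) * ((M + 2) * (M + 1)) = (M + 2).choose (i + 2) * ((i + 2) * (M - i)) := by
        have := ch2 M i (by omega)
        have := congrArg (fun x : ℕ => (x : ℤ)) this
        push_cast [Nat.cast_sub (show i ≤ M by omega)] at this
        linear_combination this
      have g1 : (s : ℤ) = M.choose (i + 3) - M.choose (i + 1) := by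
        have := congrArg (fun x : ℕ => (x : ℤ)) h1
        push_cast at this
        linarith
      have g2 : ((2 * s + h : ℕ) : ℤ) = (M + 2).choose (i + 4) - (M + 2).choose (i + 2) := by
        have := congrArg (fun x : ℕ => (x : ℤ)) hN
        push_cast at this ⊢
        linarith
      have g3 : ((s * ((M + 3) * (M + 2)) : ℕ) : ℤ) = (((2 * s + h) * ((i + 4) * (M - i)) : ℕ) : ℤ) := by
        rw [Nat.cast_mul (2 * s + h), g2]
        push_cast [Nat.cast_sub (show i ≤ M by omega)]
        rw [g1]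
        have hp : ((M : ℤ) + 1) ≠ 0 := by positivity
        apply mul_right_cancel₀ hp
        linear_combination ((M : ℤ) + 3) * f3 - ((M : ℤ) + 3) * f4
          + (((M : ℤ) + 3) * (M - 2 - i) - (M - i) * (M + 1)) * f1
          + (((M : ℤ) + 3) * (i + 2) - (M + 1) * (i + 4)) * f2
      exact_mod_cast g3
    refine core82 (t := t) (r := r + 1) (j := i + 4) ht (by omega) (by
      obtain ⟨q, hq⟩ := he
      exact ⟨q + 2, by omega⟩) (by omega) ?_ ?_
    · have e5 : 2 * (r + 1) + 2 - (i + 4) = 2 * r - i := by omega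
      have e6 : (2 * (r + 1) + 1) * (2 * (r + 1)) = (2 * r + 3) * (2 * r + 2) := by ring
      rw [e5, e6]
      exact hrat _ _ hr
    · have e5 : i + 4 - 2 = i + 2 := by omega
      have e6 : 2 * (r + 1) = 2 * r + 2 := by ring
      rw [e5, e6, ← hn, hN]
  · -- type `A`
    have hlt : M.choose i ≤ M.choose (i + 2) := by
      rcases Nat.lt_or_ge M (2 * (i + 2)) with h3 | h3
      · have : M = 2 * i + 3 := by omega
        subst this
        have e1 : (2 * i + 3).choose (i + 2) = (2 * i + 3).choose (i + 1) := by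
          rw [← Nat.choose_symm_of_eq_add (show 2 * i + 3 = (i + 2) + (i + 1) by ring)]
        rw [e1]
        exact choose_mono81 (by omega) (by omega)
      · exact choose_mono81 (by omega) h3
    obtain ⟨D, hD⟩ : ∃ D, M.choose (i + 2) = M.choose i + D := ⟨M.choose (i + 2) - M.choose i, by omega⟩
    have hch := ch3 M i
    have hs' : s = M.choose (i + 1) * D := by
      rw [hD] at h1
      nlinarith
    have hN : 2 * s + h = D * (M + 2).choose (i + 2) := by
      rw [hch, hs']
      rw [hD] at h2 ⊢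
      nlinarith
    have hD0 : 0 < D := by
      by_contra hcon
      have h3 : D = 0 := by omega
      rw [h3, mul_zero] at hs'
      omega
    have hr := ch2 M i (by omega)
    have hr' : s * ((M + 2) * (M + 1)) = (2 * s + h) * ((i + 2) * (M - i)) := by
      rw [hN, hs']
      calc M.choose (i + 1) * D * ((M + 2) * (M + 1)) = D * (M.choose (i + 1) * ((M + 2) * (M + 1))) := by ring
        _ = _ := by rw [hr]; ring
    rcases Nat.eq_zero_or_pos i with rfl | hi0
    · -- `i = 0`
      have hM3 : 3 ≤ M := by omega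
      have e1 : M + 2 - 1 = M + 1 := by omega
      have h3 : 2 * (M + 2).choose 2 = (M + 2) * (M + 1) := by
        rw [Nat.choose_two_right, ← Nat.mul_div_assoc _ (Nat.even_mul_pred_self (M + 2)).two_dvd,
          Nat.mul_div_cancel_left _ (by norm_num), e1]
      have h5 : 2 * M.choose 2 = M * (M - 1) := by
        rw [Nat.choose_two_right, ← Nat.mul_div_assoc _ (Nat.even_mul_pred_self M).two_dvd,
          Nat.mul_div_cancel_left _ (by norm_num)]
      simp only [Nat.zero_add, Nat.choose_zero_right] at hD hN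
      have h6 : M * (M - 1) - 2 = 2 * D := by omega
      have hK : (M + 2) * (M + 1) < (M + 2) ^ 2 := by nlinarith
      obtain ⟨h7, -, h8⟩ := bds81 ht (by positivity) hK (hrat _ _ hr')
      have h9 : D * ((M + 2) * (M + 1)) = 2 * ((t + 2) * (t ^ 2 + 3 * t + 3)) := by
        rw [← hn, hN, ← h3]
        ring
      have h10 : (t + 2) * (t ^ 2 + 3 * t + 3) ≤ (2 * (M + 2) + 1) * (3 * ((M + 2) * (M + 1))) :=
        Nat.mul_le_mul (by omega) h8
      have h11 : D * ((M + 2) * (M + 1)) ≤ 6 * (2 * (M + 2) + 1) * ((M + 2) * (M + 1)) := by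
        rw [h9]
        calc 2 * ((t + 2) * (t ^ 2 + 3 * t + 3)) ≤ 2 * ((2 * (M + 2) + 1) * (3 * ((M + 2) * (M + 1)))) :=
              Nat.mul_le_mul_left _ h10
          _ = _ := by ring
      have h12 := Nat.le_of_mul_le_mul_right h11 (by positivity)
      have hM28 : M < 28 := by
        obtain ⟨q, rfl⟩ : ∃ q, M = q + 1 := ⟨M - 1, by omega⟩
        have e7 : q + 1 - 1 = q := by omega
        rw [e7] at h6
        by_contra hcon
        push Not at hcon
        have h13 : (q + 1) * q ≤ 2 * D + 2 := by omega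
        have h14 : 27 * q ≤ q * q := Nat.mul_le_mul_right _ (by omega)
        have h15 : (q + 1) * q = q * q + q := by ring
        omega
      have h13 := fin83 M hM28 t (by omega)
      unfold ck3 at h13
      rw [decide_eq_true ht, decide_eq_true hM3, decide_eq_true (by
        rw [h6]
        calc 2 * D * ((M + 2) * (M + 1)) = 2 * (D * ((M + 2) * (M + 1))) := by ring
          _ = _ := by rw [h9]; ring)] at h13
      exact absurd h13 (by decide)
    · refine core81 (a := M + 2) (j := i + 2) ht (by omega) (by omega) ?_ ?_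
      · have e1 : M + 2 - 1 = M + 1 := by omega
        have e2 : M + 2 - (i + 2) = M - i := by omega
        rw [e1, e2]
        exact hrat _ _ hr'
      · rw [← hn, hN]
        exact Nat.le_mul_of_pos_left _ hD0
  · -- middle exterior power
    have e1 := Nat.choose_succ_right_eq (2 * k - 2) (k - 1)
    have e2 : k - 1 + 1 = k := by omega
    have e3 : 2 * k - 2 - (k - 1) = k - 1 := by omega
    rw [e2, e3] at e1
    rw [← h1] at e1
    have h3 : h * (k - 1) = 2 * (s * k) := by
      rw [h2, e1]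
      ring
    have h5 : h * (k - 1) ≤ 3 * s * (k - 1) := by
      rw [h3]
      have : 2 * k ≤ 3 * (k - 1) := by omega
      calc 2 * (s * k) = s * (2 * k) := by ring
        _ ≤ s * (3 * (k - 1)) := Nat.mul_le_mul_left _ this
        _ = _ := by ring
    have h6 := Nat.le_of_mul_le_mul_right h5 (by omega)
    omega
  · obtain ⟨q, rfl⟩ : ∃ q, r = q + 1 := ⟨r - 1, by omega⟩
    have e1 : q + 1 - 1 = q := by omega
    rw [e1] at h1
    have h3 : h ≤ (q + 1) ^ 2 := by omega
    have h5 : (q + 1) * q ≤ 2 * s := by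
      rcases h1 with h1 | h1
      · omega
      · rw [h1]; exact Nat.mul_le_mul_left _ (by omega)
    nlinarith
  · omega
  · omega
  · omega
  · omega

end LT
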