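import Pool.Agent.Helper90.LT.Num

/-!
Project LT (MP_b8862a_ag): the Hodge numbers of the smooth surfaces in the three-dimensional projective space are not
exceptional. `d = t + 3` is the degree. The finite part.
-/

namespace LT

theorem choose_mono81 {a k j : ℕ} (hkj : k ≤ j) (hj : 2 * j ≤ a) : a.choose k ≤ a.choose j := by
  induction j, hkj using Nat.le_induction with
  | base => exact le_rfl
  | succ j hkj ih => exact (ih (by omega)).trans (Nat.choose_le_succ_of_lt_half_left (by omega))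

/-- the divisibility -/
theorem dvd81 {t K Z : ℕ} (h : (t + 1) * t * K = 6 * (t ^ 2 + 3 * t + 3) * Z) : t ^ 2 + 3 * t + 3 ∣ 3 * K := by
  have h1 : ((t ^ 2 + 3 * t + 3 : ℕ) : ℤ) ∣ ((3 * K : ℕ) : ℤ) := by
    have h2 : (((t + 1) * t * K : ℕ) : ℤ) = ((6 * (t ^ 2 + 3 * t + 3) * Z : ℕ) : ℤ) := congrArg _ h
    push_cast at h2 ⊢
    refine ⟨6 * Z * ((t + 2) * (t + 3)) - (t ^ 2 + 3 * t + 3) * K + 4 * K, ?_⟩
    linear_combination (((t : ℤ) + 2) * (t + 3)) * h2
  exact_mod_cast h1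

/-- the two bounds -/
theorem bds81 {t K Z b : ℕ} (ht : 2 ≤ t) (hK : 0 < K) (hKb : K < b ^ 2)
    (h : (t + 1) * t * K = 6 * (t ^ 2 + 3 * t + 3) * Z) : t < 2 * b ∧ K ≤ 13 * Z ∧ t ^ 2 + 3 * t + 3 ≤ 3 * K := by
  have h1 := Nat.le_of_dvd (by positivity) (dvd81 h)
  refine ⟨?_, ?_, h1⟩
  · by_contra hcon
    push Not at hcon
    nlinarith
  · have h2 : 6 * (t ^ 2 + 3 * t + 3) ≤ 13 * ((t + 1) * t) := by nlinarith
    have h3 : (t + 1) * t * K ≤ (t + 1) * t * (13 * Z) := by
      rw [h]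
      calc 6 * (t ^ 2 + 3 * t + 3) * Z ≤ 13 * ((t + 1) * t) * Z := Nat.mul_le_mul_right _ h2
        _ = (t + 1) * t * (13 * Z) := by ring
    exact Nat.le_of_mul_le_mul_left h3 (by positivity)

def ck1 (a j t : ℕ) : Bool := decide (3 ≤ j) && decide (2 * j ≤ a) && decide (2 ≤ t) &&
    decide ((t + 1) * t * (a * (a - 1)) = 6 * (t ^ 2 + 3 * t + 3) * (j * (a - j)))

theorem fin81 : ∀ a < 49, ∀ j < 25, ∀ t < 98, ck1 a j t = false := by decide +kernel

theorem choose_five81 (b : ℕ) : 120 * (b + 5).choose 5 = (b + 1) * (b + 2) * (b + 3) * (b + 4) * (b + 5) := by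
  have h1 := Nat.descFactorial_eq_factorial_mul_choose (b + 5) 5
  have h2 : (5 : ℕ).factorial = 120 := by decide
  rw [h2] at h1
  rw [← h1]
  simp only [Nat.descFactorial_succ, Nat.descFactorial_zero]
  have e0 : b + 5 - 0 = b + 5 := by omega
  have e1 : b + 5 - 1 = b + 4 := by omega
  have e2 : b + 5 - 2 = b + 3 := by omega
  have e3 : b + 5 - 3 = b + 2 := by omega
  have e4 : b + 5 - 4 = b + 1 := by omega
  rw [e0, e1, e2, e3, e4]
  ring

theorem core81 {t a j : ℕ} (ht : 2 ≤ t) (hj : 3 ≤ j) (h2 : 2 * j ≤ a)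
    (h : (t + 1) * t * (a * (a - 1)) = 6 * (t ^ 2 + 3 * t + 3) * (j * (a - j)))
    (hc : a.choose j ≤ (t + 2) * (t ^ 2 + 3 * t + 3)) : False := by
  obtain ⟨b, rfl⟩ : ∃ b, a = b + 5 := ⟨a - 5, by omega⟩
  have e1 : b + 5 - 1 = b + 4 := by omega
  have hK : (b + 5) * (b + 5 - 1) < (b + 5) ^ 2 := by rw [e1]; nlinarith
  obtain ⟨h3, h4, h5⟩ := bds81 ht (by rw [e1]; positivity) hK h
  have ha : b + 5 ≤ 48 := by
    rcases Nat.lt_or_ge j 5 with hj5 | hj5
    · have hj34 : j = 3 ∨ j = 4 := by omega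
      rcases hj34 with rfl | rfl
      · have e3 : b + 5 - 3 = b + 2 := by omega
        rw [e1, e3] at h4
        nlinarith
      · have e3 : b + 5 - 4 = b + 1 := by omega
        rw [e1, e3] at h4
        nlinarith
    · have h6 : (b + 5).choose 5 ≤ (b + 5).choose j := choose_mono81 hj5 h2
      have h7 := choose_five81 b
      rw [e1] at h5
      by_contra hcon
      push Not at hcon
      have h8 : (b + 1) * (b + 2) * (b + 3) * (b + 4) * (b + 5) ≤
          120 * ((2 * (b + 5) + 1) * (3 * ((b + 5) * (b + 4)))) := by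
        rw [← h7]
        refine Nat.mul_le_mul_left _ ((h6.trans hc).trans (Nat.mul_le_mul (by omega) h5))
      have h9 : (b + 5) * (b + 4) * ((b + 1) * (b + 2) * (b + 3)) ≤ (b + 5) * (b + 4) * (360 * (2 * b + 11)) := by
        calc (b + 5) * (b + 4) * ((b + 1) * (b + 2) * (b + 3)) = (b + 1) * (b + 2) * (b + 3) * (b + 4) * (b + 5) := by ring
          _ ≤ _ := h8
          _ = _ := by ring
      have h10 := Nat.le_of_mul_le_mul_left h9 (by positivity)
      have h11 : 812 ≤ (b + 1) * (b + 2) := by nlinarith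
      have h12 : 812 * (b + 3) ≤ (b + 1) * (b + 2) * (b + 3) := Nat.mul_le_mul_right _ h11
      omega
  have h6 := fin81 (b + 5) (by omega) j (by omega) t (by omega)
  unfold ck1 at h6
  rw [decide_eq_true hj, decide_eq_true h2, decide_eq_true ht, decide_eq_true h] at h6
  exact absurd h6 (by decide)

def ck2 (r j t : ℕ) : Bool := decide (4 ≤ j) && decide (j ≤ r) && decide (2 ≤ t) &&
    decide ((t + 1) * t * ((2 * r + 1) * (2 * r)) = 6 * (t ^ 2 + 3 * t + 3) * (j * (2 * r + 2 - j)))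

theorem fin82 : ∀ r < 26, ∀ j < 26, ∀ t < 104, ck2 r j t = false := by decide +kernel

theorem choose_six81 (b : ℕ) : 720 * (b + 6).choose 6 = (b + 1) * (b + 2) * (b + 3) * (b + 4) * (b + 5) * (b + 6) := by
  have h1 := Nat.descFactorial_eq_factorial_mul_choose (b + 6) 6
  have h2 : (6 : ℕ).factorial = 720 := by decide
  rw [h2] at h1
  rw [← h1]
  simp only [Nat.descFactorial_succ, Nat.descFactorial_zero]
  have e0 : b + 6 - 0 = b + 6 := by omega
  have e1 : b + 6 - 1 = b + 5 := by omega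
  have e2 : b + 6 - 2 = b + 4 := by omega
  have e3 : b + 6 - 3 = b + 3 := by omega
  have e4 : b + 6 - 4 = b + 2 := by omega
  have e5 : b + 6 - 5 = b + 1 := by omega
  rw [e0, e1, e2, e3, e4, e5]
  ring

/-- symplectic case; `n = C(2 r, j) - C(2 r, j - 2)` -/
theorem core82 {t r j : ℕ} (ht : 2 ≤ t) (hj : 4 ≤ j) (he : Even j) (h2 : j ≤ r)
    (h : (t + 1) * t * ((2 * r + 1) * (2 * r)) = 6 * (t ^ 2 + 3 * t + 3) * (j * (2 * r + 2 - j)))
    (hc : (2 * r).choose j ≤ (t + 2) * (t ^ 2 + 3 * t + 3) + (2 * r).choose (j - 2)) : False := by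
  have hK : (2 * r + 1) * (2 * r) < (2 * r + 1) ^ 2 := by nlinarith
  have hK0 : 0 < (2 * r + 1) * (2 * r) := Nat.mul_pos (by omega) (by omega)
  obtain ⟨h3, h4, h5⟩ := bds81 ht hK0 hK h
  obtain ⟨q, hq⟩ : ∃ q, 2 * r + 2 = j + q := ⟨2 * r + 2 - j, by omega⟩
  have hq' : 2 * r + 2 - j = q := by omega
  rw [hq'] at h4 h
  -- `6 j q < (2 r + 1) (2 r)`
  have h6 : 6 * (j * q) < (2 * r + 1) * (2 * r) := by
    by_contra hcon
    push Not at hcon
    have h7 : (t + 1) * t * ((2 * r + 1) * (2 * r)) ≤ (t + 1) * t * (6 * (j * q)) := Nat.mul_le_mul_left _ hcon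
    rw [h] at h7
    have h8 : 0 < j * q := Nat.mul_pos (by omega) (by omega)
    nlinarith
  have hj4 : 4 * j < 2 * r + 1 := by
    by_contra hcon
    push Not at hcon
    -- `j q` is increasing in `j`
    have h7 : (2 * r + 1) * (3 * (2 * r + 1)) ≤ 16 * (j * q) := by
      have h8 : 2 * r + 1 ≤ 4 * j := hcon
      have h9 : j ≤ r := h2
      have h10 : q + j = 2 * r + 2 := by omega
      nlinarith [Nat.mul_le_mul h8 h8]
    nlinarith
  -- the dimension
  have hcl : (2 * r).choose (j - 2) * 4 ≤ (2 * r).choose j := by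
    obtain ⟨i, rfl⟩ : ∃ i, j = i + 2 := ⟨j - 2, by omega⟩
    have e1 := Nat.choose_succ_right_eq (2 * r) i
    have e2 := Nat.choose_succ_right_eq (2 * r) (i + 1)
    simp only [Nat.add_sub_cancel]
    have e3 : 2 * r - i = (2 * r - (i + 1)) + 1 := by omega
    obtain ⟨p, hp⟩ : ∃ p, 2 * r - (i + 1) = p := ⟨_, rfl⟩
    rw [e3, hp] at e1
    rw [hp] at e2
    have hp2 : 2 * (i + 2) ≤ p := by omega
    have e4 : (2 * r).choose (i + 1 + 1) * ((i + 1 + 1) * (i + 1)) = (2 * r).choose i * ((p + 1) * p) := by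
      calc (2 * r).choose (i + 1 + 1) * ((i + 1 + 1) * (i + 1)) = ((2 * r).choose (i + 1 + 1) * (i + 1 + 1)) * (i + 1) := by ring
        _ = ((2 * r).choose (i + 1) * (i + 1)) * p := by rw [e2]; ring
        _ = _ := by rw [e1]; ring
    have e5 : (2 * r).choose i * 4 * ((i + 1 + 1) * (i + 1)) ≤ (2 * r).choose (i + 1 + 1) * ((i + 1 + 1) * (i + 1)) := by
      rw [e4, mul_assoc]
      exact Nat.mul_le_mul_left _ (by nlinarith)
    exact Nat.le_of_mul_le_mul_right e5 (by positivity)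
  have hr : r ≤ 25 := by
    rcases Nat.lt_or_ge j 6 with hj5 | hj5
    · have hj34 : j = 4 := by
        obtain ⟨k, hk⟩ := he
        omega
      subst hj34
      have h7 : q = 2 * r - 2 := by omega
      obtain ⟨b, rfl⟩ : ∃ b, r = b + 1 := ⟨r - 1, by omega⟩
      have h8 : q = 2 * b := by omega
      subst h8
      nlinarith
    · by_contra hcon
      push Not at hcon
      obtain ⟨b, hb⟩ : ∃ b, 2 * r = b + 6 := ⟨2 * r - 6, by omega⟩
      have h6' : (2 * r).choose 6 ≤ (2 * r).choose j := choose_mono81 hj5 (by omega)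
      have h7 : 720 * (2 * r).choose 6 = (b + 1) * (b + 2) * (b + 3) * (b + 4) * (b + 5) * (b + 6) := by
        rw [hb]
        exact choose_six81 b
      have h8 : 3 * (2 * r).choose 6 ≤ 4 * ((t + 2) * (t ^ 2 + 3 * t + 3)) := by omega
      have h9 : (t + 2) * (t ^ 2 + 3 * t + 3) ≤ (2 * (2 * r + 1) + 1) * (3 * ((2 * r + 1) * (2 * r))) :=
        Nat.mul_le_mul (by omega) h5
      have h10 : 3 * ((b + 1) * (b + 2) * (b + 3) * (b + 4) * (b + 5) * (b + 6)) ≤
          2880 * ((2 * b + 15) * (3 * ((b + 7) * (b + 6)))) := by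
        have h11 : (2 * (2 * r + 1) + 1) * (3 * ((2 * r + 1) * (2 * r))) = (2 * b + 15) * (3 * ((b + 7) * (b + 6))) := by
          rw [hb]; ring
        rw [← h11, ← h7]
        omega
      have h11 : (b + 6) * ((b + 1) * (b + 2) * (b + 3) * (b + 4) * (b + 5)) ≤ (b + 6) * (2880 * ((2 * b + 15) * (b + 7))) := by
        nlinarith
      have h12 := Nat.le_of_mul_le_mul_left h11 (by omega)
      have hb46 : 46 ≤ b := by omega
      -- `(b+1)(b+2)(b+3)(b+4)(b+5) ≥ 47·48·49 (b+4)(b+5)`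
      have h13 : 47 * 48 * 49 ≤ (b + 1) * (b + 2) * (b + 3) :=
        Nat.mul_le_mul (Nat.mul_le_mul (by omega) (by omega)) (by omega)
      have h14 : 47 * 48 * 49 * ((b + 4) * (b + 5)) ≤ 2880 * ((2 * b + 15) * (b + 7)) := by
        refine le_trans ?_ h12
        calc 47 * 48 * 49 * ((b + 4) * (b + 5)) ≤ (b + 1) * (b + 2) * (b + 3) * ((b + 4) * (b + 5)) :=
              Nat.mul_le_mul_right _ h13
          _ = _ := by ring
      nlinarith
  have h7 := fin82 r (by omega) j (by omega) t (by omega)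
  unfold ck2 at h7
  rw [hq', decide_eq_true hj, decide_eq_true h2, decide_eq_true ht, decide_eq_true h] at h7
  exact absurd h7 (by decide)

def ck3 (M t : ℕ) : Bool := decide (2 ≤ t) && decide (3 ≤ M) &&
    decide ((M * (M - 1) - 2) * ((M + 2) * (M + 1)) = 4 * ((t + 2) * (t ^ 2 + 3 * t + 3)))

theorem fin83 : ∀ M < 28, ∀ t < 60, ck3 M t = false := by decide +kernel

end LT
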